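import Pool.Agent.TH936.NF.Gal
import Pool.Agent.H977R3.CM.Aut

/-!
# Automorphisms of the complex numbers that fix a number field and raise roots of unity to a power
-/

set_option autoImplicit false

open Polynomial

namespace Pool.Agent.TH936.CM

open Pool.Agent.TH936.NF

/-- the intersection of a number field with the maximal cyclotomic field -/
lemma exists_level_fd (F : IntermediateField ℚ ℂ) [FiniteDimensional ℚ F] :
    ∃ M : ℕ, 0 < M ∧ ∀ x : ℂ, x ∈ F → x ∈ Kc → x ∈ Kl M := by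
  have h1 : (Submodule.map F.val.toLinearMap ⊤ ⊓ Subalgebra.toSubmodule Kc.toSubalgebra :
      Submodule ℚ ℂ).FG := by
    have : IsNoetherian ℚ (Submodule.map F.val.toLinearMap ⊤ : Submodule ℚ ℂ) := by
      have : Module.Finite ℚ (Submodule.map F.val.toLinearMap (⊤ : Submodule ℚ F)) := by
        infer_instance
      infer_instance
    exact Submodule.FG.of_le_of_isNoetherian inf_le_left
  obtain ⟨r, b, hb⟩ := Submodule.fg_iff_exists_fin_generating_family.1 h1
  have hbK : ∀ i, b i ∈ Kc := by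
    intro i
    have : b i ∈ (Submodule.map F.val.toLinearMap ⊤ ⊓ Subalgebra.toSubmodule Kc.toSubalgebra :
      Submodule ℚ ℂ) := by
      rw [← hb]
      exact Submodule.subset_span ⟨i, rfl⟩
    exact this.2
  choose m hm hm' using fun i => exists_level (b i) (hbK i)
  refine ⟨∏ i, m i, Finset.prod_pos fun i _ => hm i, fun x hx hx' => ?_⟩
  have h2 : x ∈ Submodule.span ℚ (Set.range b) := by
    rw [hb]
    exact ⟨⟨⟨x, hx⟩, trivial, rfl⟩, hx'⟩
  have h3 : Submodule.span ℚ (Set.range b) ≤ Subalgebra.toSubmodule (Kl (∏ i, m i)).toSubalgebra := by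
    rw [Submodule.span_le]
    rintro _ ⟨i, rfl⟩
    exact Kl_mono (Finset.dvd_prod_of_mem _ (Finset.mem_univ i)) (hm' i)
  exact h3 h2

/-- **Automorphisms that fix a number field and act on roots of unity.** -/
theorem exists_aut_fix (S : Finset ℂ) (hS : ∀ x ∈ S, IsAlgebraic ℚ x) : ∃ M : ℕ, 0 < M ∧
    ∀ (D k : ℕ), 0 < D → Nat.Coprime k D → k % M = 1 % M →
      ∃ σ : ℂ ≃+* ℂ, (∀ x ∈ S, σ x = x) ∧ ∀ z : ℂ, z ^ D = 1 → σ z = z ^ k := by
  set F : IntermediateField ℚ ℂ := IntermediateField.adjoin ℚ (S : Set ℂ) with hF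
  have hfd : FiniteDimensional ℚ F :=
    IntermediateField.finiteDimensional_adjoin fun x hx => (hS x hx).isIntegral
  obtain ⟨M, hM, hFM⟩ := exists_level_fd F
  refine ⟨M, hM, fun D k hD hk hkM => ?_⟩
  have hKM : Kl M ≤ Kc := by
    refine IntermediateField.adjoin.mono _ _ _ ?_
    rintro z (hz : z ^ M = 1)
    exact ⟨M, hM, hz⟩
  have hkM' : Nat.Coprime k M := by
    have h1 : Nat.gcd k M = Nat.gcd 1 M := by
      rw [Nat.gcd_comm, Nat.gcd_comm 1, Nat.gcd_rec, Nat.gcd_rec M 1, hkM]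
    rw [Nat.Coprime, h1, Nat.gcd_one_left]
  have hDM : 0 < D * M := Nat.mul_pos hD hM
  obtain ⟨τ, hτ⟩ := exists_sigma hDM (Nat.Coprime.mul_right hk hkM')
  have hτM : ∀ x : ℂ, ∀ hx : x ∈ Kl M, τ ⟨x, hKM hx⟩ = x := by
    refine fun x hx => sigma_fix hKM τ (fun z hz hz' => ?_) x hx
    have h1 : z ^ (D * M) = 1 := by rw [mul_comm, pow_mul, hz, one_pow]
    rw [hτ z h1]
    exact pow_mod_one hkM hz
  -- the root of unity
  have hp := Complex.isPrimitiveRoot_exp (D * M) hDM.ne'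
  set ζ : ℂ := Complex.exp (2 * Real.pi * Complex.I / (D * M : ℕ)) with hζ
  have hζD : ζ ^ (D * M) = 1 := hp.pow_eq_one
  have hζK : ζ ∈ Kc := mu_mem hDM hζD
  have hint : IsIntegral F ζ := IsIntegral.of_pow hDM (hζD ▸ isIntegral_one)
  set p : F[X] := minpoly F ζ with hpdef
  have hpm : p.Monic := minpoly.monic hint
  have hdvd : p ∣ X ^ (D * M) - 1 := by
    refine minpoly.dvd F ζ ?_
    simp [hζD]
  have hroots : ∀ a ∈ (p.map (algebraMap F ℂ)).roots, a ∈ (algebraMap Kc ℂ).range := by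
    intro a ha
    have h1 : (p.map (algebraMap F ℂ)).eval a = 0 := (mem_roots'.1 ha).2
    obtain ⟨q, hq⟩ := hdvd
    have h2 : (((X : F[X]) ^ (D * M) - 1).map (algebraMap F ℂ)).eval a = 0 := by
      rw [hq, Polynomial.map_mul, eval_mul, h1, zero_mul]
    have h3 : a ^ (D * M) = 1 := by
      simpa [sub_eq_zero] using h2
    exact ⟨⟨a, mu_mem hDM h3⟩, rfl⟩
  have hlift : p.map (algebraMap F ℂ) ∈ Polynomial.lifts (algebraMap Kc ℂ) :=
    (IsAlgClosed.splits _).mem_lift_of_roots_mem_range (hpm.map _) _ hroots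
  obtain ⟨P, hP⟩ := (Polynomial.mem_lifts _).1 hlift
  have hPc : ∀ i, ((P.coeff i : Kc) : ℂ) = ((p.coeff i : F) : ℂ) := by
    intro i
    have := congrArg (fun r => Polynomial.coeff r i) hP
    simpa [coeff_map] using this
  have hτP : ∀ i, τ (P.coeff i) = ((p.coeff i : F) : ℂ) := by
    intro i
    have h1 : ((P.coeff i : Kc) : ℂ) ∈ Kl M := by
      refine hFM _ ?_ (P.coeff i).2
      rw [hPc]
      exact (p.coeff i).2
    have h2 := hτM _ h1
    rw [← hPc]
    exact h2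
  have hev : P.eval₂ (τ : Kc →+* ℂ) (ζ ^ k) = 0 := by
    have h1 : P.eval (⟨ζ, hζK⟩ : Kc) = 0 := by
      have h2 : algebraMap Kc ℂ (P.eval (⟨ζ, hζK⟩ : Kc)) = 0 := by
        rw [← eval₂_at_apply, ← eval_map, hP]
        have h3 : aeval ζ p = 0 := minpoly.aeval F ζ
        rw [aeval_def, ← eval_map] at h3
        exact h3
      exact (map_eq_zero _).1 h2
    have h4 : τ (P.eval (⟨ζ, hζK⟩ : Kc)) = 0 := by rw [h1, map_zero]
    have h5 : P.eval₂ (τ : Kc →+* ℂ) ((τ : Kc →+* ℂ) (⟨ζ, hζK⟩ : Kc)) = 0 := by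
      rw [eval₂_at_apply]
      exact h4
    have h6 : (τ : Kc →+* ℂ) (⟨ζ, hζK⟩ : Kc) = ζ ^ k := hτ ζ hζD
    rwa [h6] at h5
  have hroot : aeval (ζ ^ k) p = 0 := by
    rw [aeval_def, eval₂_eq_sum_range]
    rw [eval₂_eq_sum_range] at hev
    have hdeg : P.natDegree = p.natDegree := by
      have h1 : (P.map (algebraMap Kc ℂ)).natDegree = (p.map (algebraMap F ℂ)).natDegree := by
        rw [hP]
      rwa [natDegree_map, natDegree_map] at h1
    rw [hdeg] at hev
    rw [← hev]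
    refine Finset.sum_congr rfl fun i _ => ?_
    congr 1
    exact (hτP i).symm
  -- the algebraic closure
  set E : IntermediateField F ℂ := algebraicClosure F ℂ with hE
  have halg : Algebra.IsAlgebraic F E := algebraicClosure.isAlgebraic F ℂ
  have hζE : ζ ∈ E := mem_algebraicClosure_iff.2 hint.isAlgebraic
  have hmin : minpoly F (⟨ζ, hζE⟩ : E) = p := by
    rw [hpdef]
    exact (minpoly.algebraMap_eq (B := E) (B' := ℂ) (algebraMap E ℂ).injective
      (⟨ζ, hζE⟩ : E)).symm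
  obtain ⟨φ, hφ⟩ := IntermediateField.exists_algHom_of_splits_of_aeval (F := F) (E := E)
    (K := ℂ) (x := ⟨ζ, hζE⟩) (y := ζ ^ k) (fun s => ⟨(halg.isAlgebraic s).isIntegral,
      IsAlgClosed.splits _⟩) (by rw [hmin]; exact hroot)
  have hφE : ∀ x : E, φ x ∈ E := fun x =>
    mem_algebraicClosure_iff.2 (IsAlgebraic.algHom φ (halg.isAlgebraic x))
  let g : E →ₐ[F] E := φ.codRestrict E.toSubalgebra hφE
  have hg : Function.Bijective g := Algebra.IsAlgebraic.algHom_bijective g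
  obtain ⟨σ, hσ⟩ := Pool.Agent.H977R3.CM.exists_aut (algebraMap E ℂ)
    (AlgEquiv.ofBijective g hg).toRingEquiv
  have hσ' : ∀ x : E, σ (x : ℂ) = φ x := fun x => hσ x
  refine ⟨σ, fun x hx => ?_, fun z hz => ?_⟩
  · have hxF : x ∈ F := IntermediateField.subset_adjoin ℚ _ hx
    have h1 := hσ' (algebraMap F E ⟨x, hxF⟩)
    rw [AlgHom.commutes] at h1
    exact h1
  · have h1 : σ ζ = ζ ^ k := by
      have := hσ' ⟨ζ, hζE⟩
      rwa [hφ] at this
    have hzM : z ^ (D * M) = 1 := by rw [pow_mul, hz, one_pow]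
    have : NeZero (D * M) := ⟨hDM.ne'⟩
    obtain ⟨i, -, hi⟩ := hp.eq_pow_of_pow_eq_one hzM
    rw [← hi, map_pow, h1, ← pow_mul, ← pow_mul, mul_comm]

end Pool.Agent.TH936.CM
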