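import Pool.Agent.TH936.CM.Psi
import Pool.Agent.TH936.CM.Num

/-!
# Non-vanishing for all ray class characters of large order
-/

set_option autoImplicit false

open Complex Filter Topology Set

namespace Pool.Agent.TH936.CM

open Pool.Agent.W192.HK

variable {R : Subring ℂ} {ω : ℂ}

lemma entire_eq {F G : ℂ → ℂ} (hF : Differentiable ℂ F) (hG : Differentiable ℂ G) (A : ℝ)
    (h : ∀ z : ℂ, A < z.re → F z = G z) : F = G := by
  have hF' : AnalyticOnNhd ℂ F univ := fun z _ => hF.analyticAt z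
  have hG' : AnalyticOnNhd ℂ G univ := fun z _ => hG.analyticAt z
  refine hF'.eq_of_eventuallyEq hG' (z₀ := ((A + 1 : ℝ) : ℂ)) ?_
  have h1 : ∀ᶠ z in 𝓝 ((A + 1 : ℝ) : ℂ), A < z.re := by
    refine (Complex.continuous_re.isOpen_preimage _ isOpen_Ioi).mem_nhds ?_
    show A < (((A + 1 : ℝ) : ℂ)).re
    rw [Complex.ofReal_re]
    linarith
  filter_upwards [h1] with z hz
  exact h z hz

lemma card_mem (I : Ideal R) [Finite (R ⧸ I)] : ((Nat.card (R ⧸ I) : ℕ) : R) ∈ I := by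
  rw [← Ideal.Quotient.eq_zero_iff_mem, map_natCast]
  have := card_nsmul_eq_zero' (G := R ⧸ I) (x := 1)
  rwa [nsmul_one] at this

/-- the values of the twists -/
structure IsL (ψ χ : Ideal R → ℂ) (F : ℂ → ℂ) : Prop where
  diff : Differentiable ℂ F
  sum : ∀ z : ℂ, 3 / 2 < z.re → HasSum (fun I : Ideal R => ψ I * χ I * (nm I : ℂ) ^ (-z)) (F z)

lemma sp_ne {j : ℕ} (hj : 0 < j) : sp (j : R) ≠ ⊥ := by
  intro h
  rw [Ideal.span_singleton_eq_bot] at h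
  have h9 := congrArg Subtype.val h
  push_cast at h9
  exact hj.ne' (by exact_mod_cast h9)

lemma exists_nat (h1 : H_BASIC) (hR : QR R ω) (J : Ideal R) (hJ : J ≠ ⊥) :
    ∃ n : ℕ, 0 < n ∧ (n : R) ∈ J := by
  obtain ⟨b1, -⟩ := h1 R ω hR
  have hJf := b1 _ hJ
  exact ⟨Nat.card (R ⧸ J), Nat.card_pos, card_mem _⟩

theorem equi_one (h1 : H_BASIC) (h2 : H_FP) (h3 : H_CNT) (h4 : H_DEC) (h5 : H_AFE)
    (hR : QR R ω) {L : PeriodPair} {Ω : ℂ} (hL : IsLat L R Ω) {q : Ideal R}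
    {s : Finset (Ideal R)} {hh : Ideal R} {μ : R} {T : Finset R} (hS : Sys q s hh μ T)
    {n k : ℕ} (hn0 : 0 < n) (hk : k = n + 1) (hnq : (n : R) ∈ q) (hnb : ∀ b ∈ s, (n : R) ∈ b)
    {σ : ℂ ≃+* ℂ} (hσR : ∀ r : R, σ (r : ℂ) = r)
    (hσg2 : σ L.g₂ = L.g₂) (hσg3 : σ L.g₃ = L.g₃)
    (hlin : ∀ z z', Rl L σ z z' → ∀ r : R, Rl L σ (r * z) (r * z')) {θ θ' : Ideal R → ℂ}
    (hθ : HC 1 q θ) (hθ' : HC 1 q θ') (hσθ : ∀ I, σ (θ I) = θ' I) (F F' : ℂ → ℂ)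
    (hFd : Differentiable ℂ F) (hFd' : Differentiable ℂ F')
    (hF : ∀ z : ℂ, 3 / 2 < z.re → HasSum (fun I : Ideal R => θ I * (nm I : ℂ) ^ (-z)) (F z))
    (hF' : ∀ z : ℂ, 3 / 2 < z.re → HasSum (fun I : Ideal R => θ' I * (nm I : ℂ) ^ (-z)) (F' z)) :
    F 1 = 0 ↔ F' 1 = 0 := by
  obtain ⟨b1, -⟩ := h1 R ω hR
  have hk0 : 0 < k := by omega
  have i1 := b1 _ (sp_ne (R := R) hn0)
  have i2 := b1 _ (sp_ne (R := R) hk0)
  have i3 := b1 _ (sp_ne (R := R) (Nat.mul_pos hn0 hk0))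
  let _ : Fintype (R ⧸ sp (n : R)) := Fintype.ofFinite _
  let _ : Fintype (R ⧸ sp (k : R)) := Fintype.ofFinite _
  obtain ⟨G, g1, g2, g3⟩ := cen h1 h2 h3 h4 h5 hR hL hS hn0 hnq hnb hk hθ
  obtain ⟨G', g1', g2', g3'⟩ := cen h1 h2 h3 h4 h5 hR hL hS hn0 hnq hnb hk hθ'
  have hFG : F = G := entire_eq hFd g1 (3 / 2) fun z hz => (hF z hz).unique (g2 z hz)
  have hFG' : F' = G' := entire_eq hFd' g1' (3 / 2) fun z hz => (hF' z hz).unique (g2' z hz)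
  rw [hFG, hFG', g3, g3']
  exact gal h2 hR hL hn0 hk0 hnq hnb i3 hσR hσg2 hσg3 hlin hθ hθ' hσθ

/-- **Vanishing is invariant under the automorphisms.** -/
theorem equi (h1 : H_BASIC) (h2 : H_FP) (h3 : H_CNT) (h4 : H_DEC) (h5 : H_AFE) (h6 : H_CLS)
    (h7 : H_PROD) (h8 : H_PW) (hR : QR R ω) {f : Ideal R} {ψ : Ideal R → ℂ} (hψ : HC 1 f ψ) :
    ∃ M : ℕ, 0 < M ∧ ∀ (c : Ideal R) (χ : Ideal R → ℂ), IsCoprime f c → HC 0 c χ →
      ∀ d : ℕ, Od χ d → ∀ a : ℕ, Nat.Coprime a d → a % M = 1 % M →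
        ∀ F F' : ℂ → ℂ, IsL ψ χ F → IsL ψ (pw χ a) F' → (F 1 = 0 ↔ F' 1 = 0) := by
  classical
  have hψ' : HC (2 * 1 - 1) f ψ := hψ
  have hft := hψ'.ne_top le_rfl
  obtain ⟨L, Ω, hL, ha2, ha3⟩ := exists_alg_lattice hR
  obtain ⟨S1, hS1, hσ1⟩ := exists_lin hR hL ha2 ha3
  obtain ⟨S2, hS2, hσ2⟩ := exists_psi h1 h2 h6 hR hψ hft
  obtain ⟨M, hM, hMσ⟩ := exists_aut_fix (S1 ∪ S2) (fun x hx => by
    rcases Finset.mem_union.1 hx with h | h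
    · exact hS1 x h
    · exact hS2 x h)
  refine ⟨M, hM, fun c χ hfc hχ d hd a had haM F F' hF hF' => ?_⟩
  obtain ⟨σ, hσS, hσμ⟩ := hMσ d a hd.pos had haM
  obtain ⟨hσR, hσg2, hσg3, hlin⟩ := hσ1 σ (fun x hx => hσS x (Finset.mem_union_left _ hx))
  have hσψ := hσ2 σ (fun x hx => hσS x (Finset.mem_union_right _ hx)) hσR
  have hσχ : ∀ I, σ (χ I) = pw χ a I := by
    intro I
    unfold pw
    split_ifs with h
    · rw [h, map_zero]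
    · exact hσμ _ (hd.pow I h)
  have hχa := h8 R ω hR c χ hχ d hd a had
  have hθ : HC 1 (f * c) (fun I => ψ I * χ I) := h7 R ω hR 1 f c ψ χ hψ hχ hfc
  have hθ' : HC 1 (f * c) (fun I => ψ I * pw χ a I) := h7 R ω hR 1 f c ψ _ hψ hχa hfc
  obtain ⟨h, hh1, hpr, hsys⟩ := h6 R ω hR
  obtain ⟨s, hh, μ, T, -, hS⟩ := hsys (f * c) hθ.ne
  have := hR.ded
  have hJ : f * c * hh ≠ ⊥ := by
    rw [← Ideal.zero_eq_bot]
    refine mul_ne_zero ?_ ?_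
    · rw [Ideal.zero_eq_bot]; exact hθ.ne
    · rw [Ideal.zero_eq_bot]; exact hS.ne
  obtain ⟨n, hn0, hnJ⟩ := exists_nat h1 hR _ hJ
  have hle1 : f * c * hh ≤ f * c := Ideal.mul_le_left
  have hle2 : f * c * hh ≤ hh := Ideal.mul_le_right
  have hnq : (n : R) ∈ f * c := hle1 hnJ
  have hnb : ∀ b ∈ s, (n : R) ∈ b := by
    intro b hb
    have h9 : hh ≤ b := Ideal.le_of_dvd (hS.dvd b hb)
    exact h9 (hle2 hnJ)
  exact equi_one h1 h2 h3 h4 h5 hR hL hS hn0 rfl hnq hnb hσR hσg2 hσg3 hlin hθ hθ'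
    (fun I => by rw [map_mul, hσψ, hσχ]) F F' hF.diff hF'.diff hF.sum hF'.sum

end Pool.Agent.TH936.CM
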