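import Pool.Agent.TH936.CM.Cnt

/-!
# The sum of the orders of vanishing over the ray class characters modulo `c`
-/

set_option autoImplicit false

open Polynomial

namespace Pool.Agent.TH936.CM

open Pool.Agent.W192.HK Pool.Agent.W366.HK

/-- units lift along surjections from finite rings -/
lemma units_surj {A B : Type*} [CommRing A] [CommRing B] [Finite A] (φ : A →+* B)
    (hφ : Function.Surjective φ) : Function.Surjective (Units.map (φ : A →* B)) := by
  intro b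
  obtain ⟨a, ha⟩ := hφ (b : B)
  -- an idempotent power
  obtain ⟨n, hn, he⟩ : ∃ n : ℕ, 0 < n ∧ a ^ n * a ^ n = a ^ n := by
    obtain ⟨i, j, hij, heq⟩ : ∃ i j : ℕ, i < j ∧ a ^ i = a ^ j := by
      by_contra hno
      push Not at hno
      have hinj : Function.Injective (fun n : ℕ => a ^ n) := by
        intro x y hxy
        rcases lt_trichotomy x y with h | h | h
        · exact absurd hxy (hno x y h)
        · exact h
        · exact absurd hxy.symm (hno y x h)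
      exact not_injective_infinite_finite _ hinj
    set k := j - i with hk
    have hk0 : 0 < k := by omega
    have h1 : ∀ m : ℕ, i ≤ m → a ^ (m + k) = a ^ m := by
      intro m hm
      have e1 : m + k = (m - i) + j := by omega
      have e2 : m = (m - i) + i := by omega
      rw [e1, pow_add, ← heq, ← pow_add, ← e2]
    have h2 : ∀ (t m : ℕ), i ≤ m → a ^ (m + t * k) = a ^ m := by
      intro t
      induction t with
      | zero => intro m _; simp
      | succ t ih =>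
        intro m hm
        have e1 : m + (t + 1) * k = (m + t * k) + k := by ring
        rw [e1, h1 _ (by omega), ih m hm]
    refine ⟨(i + 1) * k, Nat.mul_pos (by omega) hk0, ?_⟩
    have h3 : i ≤ (i + 1) * k := by nlinarith
    rw [← pow_add]
    exact h2 (i + 1) _ h3
  set e := a ^ n with hee
  have hφe : φ e = 1 := by
    have h1 : φ e * φ e = φ e := by rw [← map_mul, he]
    have h2 : φ e = ((b ^ n : Bˣ) : B) := by rw [hee, map_pow, ha, Units.val_pow_eq_pow_val]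
    rw [h2] at h1 ⊢
    have h3 : b ^ n * b ^ n = b ^ n := Units.ext (by rw [Units.val_mul]; exact h1)
    have h4 : b ^ n = 1 := by
      have := mul_left_cancel (a := b ^ n) (b := b ^ n) (c := 1) (by rw [mul_one]; exact h3)
      exact this
    rw [h4, Units.val_one]
  have hne : a * a ^ (n - 1) = e := by
    rw [hee, ← pow_succ']
    congr 1
    omega
  have hu : (a * e + (1 - e)) * (a ^ (n - 1) * e + (1 - e)) = 1 := by
    have h1 : (a * e + (1 - e)) * (a ^ (n - 1) * e + (1 - e)) =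
        (a * a ^ (n - 1)) * (e * e) + a * (e - e * e) + a ^ (n - 1) * (e - e * e) +
          (1 - 2 * e + e * e) := by ring
    rw [h1, hne, he, he]
    ring
  refine ⟨⟨a * e + (1 - e), a ^ (n - 1) * e + (1 - e), hu, by rw [mul_comm]; exact hu⟩, ?_⟩
  apply Units.ext
  show φ (a * e + (1 - e)) = b
  rw [map_add, map_mul, map_sub, map_one, hφe, ha]
  ring

variable {R : Subring ℂ} {ω : ℂ}

lemma cyc_of_dvd (h1 : H_BASIC) (hR : QR R ω) {c c' : Ideal R} (hc : c ≠ ⊥) (hd : c' ∣ c)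
    (hcyc : IsCyclic (R ⧸ c)ˣ) : IsCyclic (R ⧸ c')ˣ := by
  have hfin : Finite (R ⧸ c) := (h1 R ω hR).1 c hc
  have hle : c ≤ c' := Ideal.le_of_dvd hd
  have hs : Function.Surjective (Ideal.Quotient.factor hle) := Ideal.Quotient.factor_surjective hle
  exact isCyclic_of_surjective (Units.map (Ideal.Quotient.factor hle : (R ⧸ c) →* (R ⧸ c')))
    (units_surj _ hs)

/-- the primitive ray class characters of conductor dividing `c` -/
def Ach (c : Ideal R) : Set (Ideal R → ℂ) := {χ | ∃ c' : Ideal R, c' ∣ c ∧ HC 0 c' χ}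

theorem rank_bound (hdiv : Pool.Agent.W192.CY.S_DIV) (h1 : H_BASIC) (h6 : H_CLS)
    (h3 : H_CNT) (h7 : H_DIVR) (hR : QR R ω) {f : Ideal R} (L : (Ideal R → ℂ) → ℂ → ℂ)
    (hL : ∀ ε : ℝ, 0 < ε → ∃ N0 : ℝ, ∀ (c : Ideal R) (χ : Ideal R → ℂ), IsCoprime f c →
      HC 0 c χ → N0 ≤ nm c → ∀ d : ℕ, Od χ d → (nm c) ^ (2 / 3 + ε) ≤ d → L χ 1 ≠ 0)
    (hD : ∀ (c : Ideal R) (χ : Ideal R → ℂ), IsCoprime f c → HC 0 c χ →
      Differentiable ℂ (L χ))
    {K : ℝ} (hK : 0 < K) (hord : ∀ (c : Ideal R) (χ : Ideal R → ℂ), IsCoprime f c → HC 0 c χ →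
      (analyticOrderNatAt (L χ) 1 : ℝ) ≤ K * (1 + Real.log (nm c))) (ε : ℝ) (hε : 0 < ε) :
    ∃ C : ℝ, 0 < C ∧ ∀ c : Ideal R, IsCoprime f c → c ≠ ⊥ → IsCyclic (R ⧸ c)ˣ →
      (Ach c).Finite ∧ ∑ᶠ χ ∈ Ach c, (analyticOrderNatAt (L χ) 1 : ℝ) ≤
        C * nm c ^ (2 / 3 + ε) := by
  classical
  set δ : ℝ := ε / 4 with hδ
  have hδ0 : 0 < δ := by positivity
  obtain ⟨N0, hN0⟩ := hL δ hδ0
  obtain ⟨C1, hC1, hcntX⟩ := cnt_X hdiv h1 h6 hR δ hδ0
  obtain ⟨C2, hC2, hdv⟩ := h7 R ω hR δ hδ0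
  obtain ⟨C3, hC3, -, ho⟩ := (h3 R ω hR).2.2
  obtain ⟨b1, b2, b3, b4, b5, b6, b7, -⟩ := h1 R ω hR
  set N1 : ℝ := max N0 1 with hN1
  have hN11 : 1 ≤ N1 := le_max_right _ _
  -- the logarithm
  have hlog : ∀ x : ℝ, 1 ≤ x → 1 + Real.log x ≤ (1 + 1 / δ) * x ^ δ := by
    intro x hx
    have e1 := Real.log_le_rpow_div (show (0 : ℝ) ≤ x by linarith) hδ0
    have e2 : 1 ≤ x ^ δ := Real.one_le_rpow hx hδ0.le
    calc 1 + Real.log x ≤ x ^ δ + x ^ δ / δ := add_le_add e2 e1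
      _ = (1 + 1 / δ) * x ^ δ := by ring
  refine ⟨C2 * (C1 * (1 + C3 * N1)) * (K * (1 + 1 / δ)), by positivity,
    fun c hc hcb hcyc => ?_⟩
  have hn1 : 1 ≤ nm c := b3 c hcb
  have hn0 : 0 < nm c := by linarith
  obtain ⟨hdf, hdc⟩ := hdv c hcb
  have hdb : ∀ c' : Ideal R, c' ∣ c → c' ≠ ⊥ := by
    rintro c' ⟨J, hJ⟩ rfl
    rw [Ideal.bot_mul] at hJ
    exact hcb hJ
  have hdcop : ∀ c' : Ideal R, c' ∣ c → IsCoprime f c' := by
    rintro c' ⟨J, hJ⟩
    rw [hJ] at hc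
    exact hc.of_mul_right_left
  -- finiteness
  have hfinA : (Ach c).Finite := by
    have h8 : Ach c ⊆ ⋃ c' ∈ {J : Ideal R | J ∣ c},
        {χ : Ideal R → ℂ | RC c' χ ∧ ∀ d, Od χ d → (d : ℝ) ≤ C3 * nm c'} := by
      rintro χ ⟨c', hc', hχ⟩
      simp only [Set.mem_iUnion]
      exact ⟨c', hc', hχ.rc, fun d hd => (ho c' χ hχ.rc d hd).1⟩
    refine Set.Finite.subset (Set.Finite.biUnion hdf fun c' hc' => ?_) h8
    have := b3 c' (hdb c' hc')
    exact (hcntX c' (hdb c' hc') (cyc_of_dvd h1 hR hcb hc' hcyc) _ (by positivity)).1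
  refine ⟨hfinA, ?_⟩
  rw [finsum_mem_eq_finite_toFinset_sum _ hfinA]
  -- the characters with a zero
  set X : ℝ := (1 + C3 * N1) * nm c ^ (2 / 3 + δ) with hX
  have hX0 : 0 ≤ X := by positivity
  set Zc : Set (Ideal R → ℂ) := {χ | χ ∈ Ach c ∧ L χ 1 = 0} with hZc
  have hZsub : Zc ⊆ ⋃ c' ∈ hdf.toFinset,
      {χ : Ideal R → ℂ | RC c' χ ∧ ∀ d, Od χ d → (d : ℝ) ≤ X} := by
    rintro χ ⟨⟨c', hc', hχ⟩, h0⟩
    simp only [Set.mem_iUnion]
    refine ⟨c', hdf.mem_toFinset.2 hc', hχ.rc, fun d hd => ?_⟩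
    have hm1 : 1 ≤ nm c' := b3 c' (hdb c' hc')
    have hmle : nm c' ≤ nm c := b6 c c' hcb hc'
    have hpw : nm c' ^ (2 / 3 + δ) ≤ nm c ^ (2 / 3 + δ) :=
      Real.rpow_le_rpow (by linarith) hmle (by positivity)
    have hone : 1 ≤ nm c ^ (2 / 3 + δ) := Real.one_le_rpow hn1 (by positivity)
    have hCN : 0 ≤ C3 * N1 := by positivity
    by_cases hN : N0 ≤ nm c'
    · have h9 : (d : ℝ) < nm c' ^ (2 / 3 + δ) := by
        by_contra hlt
        push Not at hlt
        exact hN0 c' χ (hdcop c' hc') hχ hN d hd hlt h0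
      rw [hX]
      nlinarith
    · push Not at hN
      have h9 := (ho c' χ hχ.rc d hd).1
      have h10 : nm c' ≤ N1 := hN.le.trans (le_max_left _ _)
      have h11 : C3 * nm c' ≤ C3 * N1 := mul_le_mul_of_nonneg_left h10 hC3.le
      rw [hX]
      nlinarith
  have hpiece : ∀ c' ∈ hdf.toFinset,
      {χ : Ideal R → ℂ | RC c' χ ∧ ∀ d, Od χ d → (d : ℝ) ≤ X}.Finite ∧
      ({χ : Ideal R → ℂ | RC c' χ ∧ ∀ d, Od χ d → (d : ℝ) ≤ X}.ncard : ℝ) ≤
        C1 * X * nm c ^ δ := by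
    intro c' hc'
    have hc'' : c' ∣ c := hdf.mem_toFinset.1 hc'
    obtain ⟨g1, g2⟩ := hcntX c' (hdb c' hc'') (cyc_of_dvd h1 hR hcb hc'' hcyc) X hX0
    refine ⟨g1, g2.trans ?_⟩
    refine mul_le_mul_of_nonneg_left ?_ (by positivity)
    exact Real.rpow_le_rpow (by linarith [b3 c' (hdb c' hc'')]) (b6 c c' hcb hc'') hδ0.le
  have hZfin : Zc.Finite := hfinA.subset fun χ hχ => hχ.1
  have hUfin : (⋃ c' ∈ hdf.toFinset,
      {χ : Ideal R → ℂ | RC c' χ ∧ ∀ d, Od χ d → (d : ℝ) ≤ X}).Finite :=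
    Set.Finite.biUnion (Finset.finite_toSet _) fun c' hc' => (hpiece c' hc').1
  have hZcard : (Zc.ncard : ℝ) ≤ (C2 * nm c ^ δ) * (C1 * X * nm c ^ δ) := by
    have g1 := (Set.ncard_le_ncard hZsub hUfin).trans (Finset.set_ncard_biUnion_le _ _)
    calc (Zc.ncard : ℝ) ≤ ((∑ c' ∈ hdf.toFinset,
          {χ : Ideal R → ℂ | RC c' χ ∧ ∀ d, Od χ d → (d : ℝ) ≤ X}.ncard : ℕ) : ℝ) := by
          exact_mod_cast g1
      _ ≤ ∑ _c' ∈ hdf.toFinset, (C1 * X * nm c ^ δ) := by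
          push_cast
          exact Finset.sum_le_sum fun c' hc' => (hpiece c' hc').2
      _ = (hdf.toFinset.card : ℝ) * (C1 * X * nm c ^ δ) := by
          rw [Finset.sum_const, nsmul_eq_mul]
      _ ≤ (C2 * nm c ^ δ) * (C1 * X * nm c ^ δ) := by
          refine mul_le_mul_of_nonneg_right ?_ (by positivity)
          rw [← Set.ncard_eq_toFinset_card _ hdf]
          exact hdc
  -- the sum
  have hmain : ∑ χ ∈ hfinA.toFinset, (analyticOrderNatAt (L χ) 1 : ℝ) ≤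
      Zc.ncard * (K * ((1 + 1 / δ) * nm c ^ δ)) := by
    have g1 : ∑ χ ∈ hfinA.toFinset, (analyticOrderNatAt (L χ) 1 : ℝ) =
        ∑ χ ∈ hZfin.toFinset, (analyticOrderNatAt (L χ) 1 : ℝ) := by
      symm
      refine Finset.sum_subset ?_ ?_
      · intro χ hχ
        rw [Set.Finite.mem_toFinset] at hχ ⊢
        exact hχ.1
      · intro χ hχ hχ'
        rw [Set.Finite.mem_toFinset] at hχ hχ'
        have hne : L χ 1 ≠ 0 := fun h => hχ' ⟨hχ, h⟩
        obtain ⟨c', hc', hχc⟩ := hχ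
        have hd := hD c' χ (hdcop c' hc') hχc
        have h0 : analyticOrderAt (L χ) 1 = 0 :=
          (hd.analyticAt 1).analyticOrderAt_eq_zero.2 hne
        unfold analyticOrderNatAt
        rw [h0]
        simp
    rw [g1]
    calc ∑ χ ∈ hZfin.toFinset, (analyticOrderNatAt (L χ) 1 : ℝ)
        ≤ ∑ _χ ∈ hZfin.toFinset, K * ((1 + 1 / δ) * nm c ^ δ) := by
          refine Finset.sum_le_sum fun χ hχ => ?_
          rw [Set.Finite.mem_toFinset] at hχ
          obtain ⟨⟨c', hc', hχc⟩, -⟩ := hχ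
          refine (hord c' χ (hdcop c' hc') hχc).trans ?_
          refine mul_le_mul_of_nonneg_left ?_ hK.le
          have hm1 : 1 ≤ nm c' := b3 c' (hdb c' hc')
          refine (hlog _ hm1).trans ?_
          refine mul_le_mul_of_nonneg_left ?_ (by positivity)
          exact Real.rpow_le_rpow (by linarith) (b6 c c' hcb hc') hδ0.le
      _ = Zc.ncard * (K * ((1 + 1 / δ) * nm c ^ δ)) := by
          rw [Finset.sum_const, nsmul_eq_mul, ← Set.ncard_eq_toFinset_card _ hZfin]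
  refine hmain.trans ?_
  have hfac : 0 ≤ K * ((1 + 1 / δ) * nm c ^ δ) := by positivity
  refine (mul_le_mul_of_nonneg_right hZcard hfac).trans (le_of_eq ?_)
  have e1 : nm c ^ (2 / 3 + ε) = nm c ^ δ * (nm c ^ (2 / 3 + δ) * nm c ^ δ) * nm c ^ δ := by
    rw [← Real.rpow_add hn0, ← Real.rpow_add hn0, ← Real.rpow_add hn0]
    congr 1
    rw [hδ]
    ring
  rw [e1, hX]
  ring

end Pool.Agent.TH936.CM
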