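import Pool.Agent.TH936.CM.Tor
import Pool.Agent.W192.HK.Defs

/-!
# Automorphisms of the complex numbers and torsion points of an elliptic curve with complex
multiplication
-/

set_option autoImplicit false

open Filter
open scoped Topology PeriodPair

namespace Pool.Agent.TH936.CM

open H667R3 Pool.Agent.W245.EB Pool.Agent.W192.HK

variable {L : PeriodPair} {R : Subring ℂ} {ω Ω : ℂ}

/-- the lattice is `Ω R` -/
structure IsLat (L : PeriodPair) (R : Subring ℂ) (Ω : ℂ) : Prop where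
  ne : Ω ≠ 0
  mem : ∀ z : ℂ, z ∈ L.lattice ↔ ∃ r : R, z = Ω * r

lemma IsLat.mul (h : IsLat L R Ω) (a : R) (z : ℂ) (hz : z ∈ L.lattice) :
    (a : ℂ) * z ∈ L.lattice := by
  obtain ⟨r, rfl⟩ := (h.mem z).1 hz
  refine (h.mem _).2 ⟨a * r, ?_⟩
  push_cast
  ring

lemma IsLat.mem_mul (h : IsLat L R Ω) (r : R) : Ω * r ∈ L.lattice := (h.mem _).2 ⟨r, rfl⟩

lemma QR.om_mem (hR : QR R ω) : ω ∈ R := (hR.mem ω).2 ⟨0, 1, by simp⟩

lemma QR.om_ne (hR : QR R ω) : ω ≠ 0 := by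
  intro h
  have := hR.im
  rw [h] at this
  simp at this

open Classical in
/-- a finite set of algebraic numbers such that the automorphisms that fix it act linearly -/
theorem exists_lin (hR : QR R ω) (hL : IsLat L R Ω) (h2 : IsAlgebraic ℚ L.g₂)
    (h3 : IsAlgebraic ℚ L.g₃) : ∃ S : Finset ℂ, (∀ x ∈ S, IsAlgebraic ℚ x) ∧
    ∀ σ : ℂ ≃+* ℂ, (∀ x ∈ S, σ x = x) → (∀ r : R, σ (r : ℂ) = r) ∧ σ L.g₂ = L.g₂ ∧
      σ L.g₃ = L.g₃ ∧ ∀ z z', Rl L σ z z' → ∀ r : R, Rl L σ (r * z) (r * z') := by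
  have hα := QR.om_ne hR
  have hm : ∀ w ∈ L.lattice, ω * w ∈ L.lattice := fun w hw => hL.mul ⟨ω, QR.om_mem hR⟩ w hw
  obtain ⟨c, hc, hcc⟩ := wp_mul_alg h2 h3 hα hm
  have hωA : IsAlgebraic ℚ ω := alg_of_mul hm
  have hx1 : ∀ x ∈ ker hα hm, x.out ∉ L.lattice → IsAlgebraic ℚ (℘[L] x.out) := by
    intro x hx hx'
    exact (out_mem_EL h2 h3 hx).resolve_left hx'
  have hx2 : ∀ x ∈ ker hα hm, x.out ∉ L.lattice → IsAlgebraic ℚ (℘'[L] x.out) := by
    intro x hx hx'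
    have e := L.derivWeierstrassP_sq x.out hx'
    have h4 : IsAlgebraic ℚ (℘'[L] x.out ^ 2) := by
      rw [e, ← mem_QB]
      have h5 := mem_QB.2 (hx1 x hx hx')
      have h6 := mem_QB.2 h2
      have h7 := mem_QB.2 h3
      exact sub_mem (sub_mem (mul_mem (ofNat_mem QB 4) (pow_mem h5 3)) (mul_mem h6 h5)) h7
    exact IsAlgebraic.of_pow two_pos h4
  refine ⟨{ω, L.g₂, L.g₃, c} ∪ ((ker hα hm).filter (fun x => x.out ∉ L.lattice)).image
    (fun x => ℘[L] x.out) ∪ ((ker hα hm).filter (fun x => x.out ∉ L.lattice)).image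
    (fun x => ℘'[L] x.out), ?_, ?_⟩
  · intro x hx
    simp only [Finset.mem_union, Finset.mem_insert, Finset.mem_singleton, Finset.mem_image,
      Finset.mem_filter] at hx
    rcases hx with ((rfl | rfl | rfl | rfl) | ⟨y, ⟨hy1, hy2⟩, rfl⟩) | ⟨y, ⟨hy1, hy2⟩, rfl⟩
    · exact hωA
    · exact h2
    · exact h3
    · exact mem_QB.1 hc
    · exact hx1 y hy1 hy2
    · exact hx2 y hy1 hy2
  · intro σ hσ
    simp only [Finset.mem_union, Finset.mem_insert, Finset.mem_singleton, Finset.mem_image,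
      Finset.mem_filter] at hσ
    have e1 : σ ω = ω := hσ ω (by simp)
    have e2 : σ L.g₂ = L.g₂ := hσ _ (by simp)
    have e3 : σ L.g₃ = L.g₃ := hσ _ (by simp)
    have e4 : σ c = c := hσ _ (by simp)
    have hF : Fixes L σ hα hm c := ⟨e2, e3, e1, e4,
      fun x hx hx' => hσ _ (Or.inl (Or.inr ⟨x, ⟨hx, hx'⟩, rfl⟩)),
      fun x hx hx' => hσ _ (Or.inr ⟨x, ⟨hx, hx'⟩, rfl⟩)⟩
    refine ⟨fun r => ?_, e2, e3, fun z z' h r => ?_⟩
    · obtain ⟨x, y, hr⟩ := (hR.mem r).1 r.2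
      rw [hr, map_add, map_mul, map_intCast, map_intCast, e1]
    · obtain ⟨x, y, hr⟩ := (hR.mem r).1 r.2
      have h4 := (h.int_mul e2 e3 x).add e2 e3 ((h.mul hα hm hcc hF).int_mul e2 e3 y)
      rw [hr]
      have e5 : ∀ w : ℂ, ((x : ℂ) + y * ω) * w = x * w + y * (ω * w) := fun w => by ring
      rw [e5, e5]
      exact h4

/-- the action on the torsion points -/
theorem exists_unit (hL : IsLat L R Ω) (σ : ℂ ≃+* ℂ) (h2 : σ L.g₂ = L.g₂) (h3 : σ L.g₃ = L.g₃)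
    (hlin : ∀ z z', Rl L σ z z' → ∀ r : R, Rl L σ (r * z) (r * z')) (n : ℕ) (hn : 0 < n)
    (hfin : Finite (R ⧸ sp (n : R))) :
    ∃ u v : R, u * v - 1 ∈ sp (n : R) ∧ ∀ r : R, Rl L σ (Ω * r / n) (Ω * (u * r : R) / n) := by
  have hΩ := hL.ne
  have hn0 : (n : ℂ) ≠ 0 := by exact_mod_cast hn.ne'
  obtain ⟨z', hz'⟩ := Rl.exists (L := L) h2 h3 (Ω / n)
  have h4 := (hz'.nat_mul h2 h3 n).mem_iff
  have h5 : (n : ℂ) * (Ω / n) ∈ L.lattice := by
    rw [mul_div_cancel₀ _ hn0]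
    have := hL.mem_mul 1
    simpa using this
  obtain ⟨u, hu⟩ := (hL.mem _).1 (h4.1 h5)
  have h6 : ∀ r : R, Rl L σ (Ω * r / n) (Ω * (u * r : R) / n) := by
    intro r
    have h7 := hlin _ _ hz' r
    have e1 : (r : ℂ) * (Ω / n) = Ω * r / n := by ring
    have e2 : (r : ℂ) * z' = Ω * (u * r : R) / n := by
      have : z' = Ω * u / n := by
        rw [← hu]
        field_simp
      rw [this]
      push_cast
      ring
    rwa [e1, e2] at h7
  have hiff : ∀ r : R, Ω * r / n ∈ L.lattice ↔ r ∈ sp (n : R) := by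
    intro r
    rw [hL.mem, Ideal.mem_span_singleton']
    constructor
    · rintro ⟨s, hs⟩
      refine ⟨s, Subtype.ext ?_⟩
      have : (r : ℂ) = s * n := by
        field_simp at hs
        linear_combination hs
      rw [this]
      push_cast
      ring
    · rintro ⟨s, rfl⟩
      refine ⟨s, ?_⟩
      push_cast
      field_simp
  -- multiplication by `u` is injective modulo `n`
  have hinj : Function.Injective (fun x : R ⧸ sp (n : R) => Ideal.Quotient.mk (sp (n : R)) u * x) := by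
    intro x y hxy
    obtain ⟨a, rfl⟩ := Ideal.Quotient.mk_surjective x
    obtain ⟨b, rfl⟩ := Ideal.Quotient.mk_surjective y
    simp only [← map_mul] at hxy
    rw [Ideal.Quotient.mk_eq_mk_iff_sub_mem] at hxy ⊢
    have h8 := (h6 (a - b)).mem_iff
    rw [hiff, hiff] at h8
    refine h8.2 ?_
    rw [mul_sub]
    exact hxy
  have hsurj := Finite.surjective_of_injective hinj
  obtain ⟨y, hy⟩ := hsurj 1
  obtain ⟨v, rfl⟩ := Ideal.Quotient.mk_surjective y
  refine ⟨u, v, ?_, h6⟩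
  rw [← Ideal.Quotient.mk_eq_mk_iff_sub_mem, map_mul, map_one]
  exact hy

end Pool.Agent.TH936.CM
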