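import Pool.Agent.TH936.CM.Lat

/-!
# The regularized sum of a periodic function as a combination of values of elliptic functions
-/

set_option autoImplicit false

open Filter
open scoped Topology PeriodPair

namespace Pool.Agent.TH936.CM

open H667R3 Pool.Agent.W192.HK

variable {L : PeriodPair} {R : Subring ℂ} {Ω : ℂ}

/-- the regularized sum -/
noncomputable def SS (c : R → ℂ) (δ : ℝ) : ℂ := ∑' α : R, c α * fd δ (α : ℂ)

open Classical in
/-- the combination of values of elliptic functions -/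
noncomputable def AA (L : PeriodPair) (Ω : ℂ) (n k : ℕ) [Fintype (R ⧸ sp (n : R))]
    [Fintype (R ⧸ sp (k : R))] (c : R → ℂ) : ℂ :=
  ∑ q : R ⧸ sp (n : R), c q.out * ∑ p : R ⧸ sp (k : R),
    if p = 0 then 0 else Dd L (Ω * q.out / n) (Ω * p.out / k)

lemma lat_div_iff (hL : IsLat L R Ω) (n : ℕ) (hn : 0 < n) (r : R) :
    Ω * r / n ∈ L.lattice ↔ r ∈ sp (n : R) := by
  have hn0 : (n : ℂ) ≠ 0 := by exact_mod_cast hn.ne'
  have hΩ := hL.ne
  rw [hL.mem, Ideal.mem_span_singleton']
  constructor
  · rintro ⟨s, hs⟩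
    refine ⟨s, Subtype.ext ?_⟩
    have : (r : ℂ) = s * n := by
      field_simp at hs
      linear_combination hs
    rw [this]
    push_cast
    ring
  · rintro ⟨s, rfl⟩
    refine ⟨s, ?_⟩
    push_cast
    field_simp

lemma out_sub (I : Ideal R) (r : R) : (Ideal.Quotient.mk I r).out - r ∈ I := by
  rw [← Ideal.Quotient.mk_eq_mk_iff_sub_mem, Ideal.Quotient.mk_out]

lemma lat_sub {n : ℕ} (hL : IsLat L R Ω) (hn : 0 < n) {a b : R} (h : a - b ∈ sp (n : R)) :
    Ω * a / n - Ω * b / n ∈ L.lattice := by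
  have := (lat_div_iff hL n hn (a - b)).2 h
  convert this using 1
  push_cast
  ring

theorem lim_A (hL : IsLat L R Ω) {n k m : ℕ} (hn : 0 < n) (hk : k = n * m + 1)
    [Fintype (R ⧸ sp (n : R))] [Fintype (R ⧸ sp (k : R))]
    (c : R → ℂ) (hc : ∀ a b : R, a - b ∈ sp (n : R) → c a = c b)
    (hc0 : ∀ a ∈ sp (n : R), c a = 0) (hc1 : ∀ a : R, ‖c a‖ ≤ 1) :
    Tendsto (fun δ : ℝ => k * (n / Ω) * SS c (δ / k ^ 2) -
      (Fintype.card (R ⧸ sp (k : R)) : ℂ) * (n / Ω) * SS c δ) (𝓝[>] 0)
      (𝓝 ((1 / 2) * AA L Ω n k c)) := by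
  classical
  have hk0 : 0 < k := by omega
  have hnC : (n : ℂ) ≠ 0 := by exact_mod_cast hn.ne'
  have hkC : (k : ℂ) ≠ 0 := by exact_mod_cast hk0.ne'
  have hnR : (0 : ℝ) < n := by exact_mod_cast hn
  have hkR : (0 : ℝ) < k := by exact_mod_cast hk0
  have hΩ := hL.ne
  have hΩn : 0 < Complex.normSq Ω := Complex.normSq_pos.2 hΩ
  set z : R ⧸ sp (n : R) → ℂ := fun q => Ω * q.out / n with hz
  set t : R ⧸ sp (k : R) → ℂ := fun p => Ω * p.out / k with ht
  have hcs : ∀ δ : ℝ, 0 < δ → Summable (fun α : R => c α * fd δ (α : ℂ)) := by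
    intro δ hδ
    have h1 := summ_fd hL 0 (δ := δ / Complex.normSq Ω) (by positivity)
    have h2 : Summable (fun α : R => ‖fd δ (α : ℂ)‖) := by
      have h3 := (h1.mul_left Ω).norm
      refine h3.congr fun α => ?_
      have e : (α : ℂ) = Ω⁻¹ * (0 + Ω * α) := by field_simp; ring
      conv_rhs => rw [e, fd_mul, inv_inv, Complex.normSq_inv]
      rw [div_eq_mul_inv]
    refine Summable.of_norm_bounded h2 fun α => ?_
    rw [norm_mul]
    exact mul_le_of_le_one_left (norm_nonneg _) (hc1 α)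
  -- the exact identity
  have hid : ∀ δ : ℝ, 0 < δ → k * (n / Ω) * SS c (δ / k ^ 2) -
      (Fintype.card (R ⧸ sp (k : R)) : ℂ) * (n / Ω) * SS c δ =
      ∑ q : R ⧸ sp (n : R), c q.out * ∑ p : R ⧸ sp (k : R),
        ((1 / 2) * (EE R Ω (δ * n ^ 2 / Complex.normSq Ω) (z q + t p) +
          EE R Ω (δ * n ^ 2 / Complex.normSq Ω) (z q - t p) -
          2 * EE R Ω (δ * n ^ 2 / Complex.normSq Ω) (z q))) := by
    intro δ hδ
    have hδk : 0 < δ / k ^ 2 := by positivity
    set δ' : ℝ := δ * n ^ 2 / Complex.normSq Ω with hδ'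
    have hδ'0 : 0 < δ' := by positivity
    have e1 : SS c (δ / k ^ 2) = (Ω / n) * ∑ q : R ⧸ sp (n : R), c q.out *
        EE R Ω (δ' / k ^ 2) (z q) := by
      unfold SS
      rw [sum_EE hL n hn c hc (hcs _ hδk)]
      have : δ / k ^ 2 * n ^ 2 / Complex.normSq Ω = δ' / k ^ 2 := by
        rw [hδ']
        ring
      rw [this]
    have e2 : SS c δ = (Ω / n) * ∑ q : R ⧸ sp (n : R), c q.out * EE R Ω δ' (z q) := by
      unfold SS
      rw [sum_EE hL n hn c hc (hcs _ hδ)]
    have e3 : ∀ q, k * EE R Ω (δ' / k ^ 2) (z q) = ∑ p, EE R Ω δ' (z q + t p) := by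
      intro q
      rw [EE_dist hL hδ'0 k hk0 (z q)]
      congr 1
      refine (EE_per hL _ ?_).symm
      have : k * z q - z q = Ω * (m * q.out : R) := by
        simp only [hz]
        rw [hk]
        push_cast
        field_simp
        ring
      rw [this]
      exact hL.mem_mul _
    have e4 : ∀ q, ∑ p, EE R Ω δ' (z q + t p) = ∑ p, EE R Ω δ' (z q - t p) := by
      intro q
      rw [← Equiv.sum_comp (Equiv.neg (R ⧸ sp (k : R))) (fun p => EE R Ω δ' (z q + t p))]
      refine Finset.sum_congr rfl fun p _ => ?_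
      refine EE_per hL _ ?_
      have h1 : (-p).out - (-p.out) ∈ sp (k : R) := by
        have := out_sub (sp (k : R)) (-p.out)
        rwa [map_neg, Ideal.Quotient.mk_out] at this
      have h2 := lat_sub hL hk0 h1
      have e : z q + t (-p) - (z q - t p) = Ω * ((-p).out : R) / k - Ω * ((-p.out : R) : ℂ) / k := by
        simp only [ht]
        push_cast
        ring
      rw [Equiv.neg_apply, e]
      exact h2
    rw [e1, e2]
    have e5 : k * (n / Ω) * (Ω / n * ∑ q : R ⧸ sp (n : R), c q.out *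
        EE R Ω (δ' / k ^ 2) (z q)) - (Fintype.card (R ⧸ sp (k : R)) : ℂ) * (n / Ω) *
        (Ω / n * ∑ q : R ⧸ sp (n : R), c q.out * EE R Ω δ' (z q)) =
        ∑ q : R ⧸ sp (n : R), c q.out * (k * EE R Ω (δ' / k ^ 2) (z q) -
          (Fintype.card (R ⧸ sp (k : R)) : ℂ) * EE R Ω δ' (z q)) := by
      simp only [mul_sub, Finset.sum_sub_distrib, Finset.mul_sum]
      congr 1
      · refine Finset.sum_congr rfl fun q _ => ?_
        field_simp
      · refine Finset.sum_congr rfl fun q _ => ?_
        field_simp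
    rw [e5]
    refine Finset.sum_congr rfl fun q _ => ?_
    congr 1
    rw [e3, ← Finset.mul_sum, Finset.sum_sub_distrib, Finset.sum_add_distrib, ← e4, ← Finset.mul_sum,
      Finset.sum_const, Finset.card_univ, nsmul_eq_mul]
    ring
  -- the limit
  have hδl : Tendsto (fun δ : ℝ => δ * n ^ 2 / Complex.normSq Ω) (𝓝[>] 0) (𝓝[>] 0) := by
    rw [tendsto_nhdsWithin_iff]
    constructor
    · have h1 : Continuous (fun δ : ℝ => δ * n ^ 2 / Complex.normSq Ω) := by fun_prop
      have h2 := (h1.tendsto 0).mono_left (nhdsWithin_le_nhds (s := Set.Ioi 0))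
      simpa using h2
    · filter_upwards [self_mem_nhdsWithin] with δ (hδ : 0 < δ)
      show 0 < δ * n ^ 2 / Complex.normSq Ω
      positivity
  have hlim : Tendsto (fun δ : ℝ => ∑ q : R ⧸ sp (n : R), c q.out * ∑ p : R ⧸ sp (k : R),
        ((1 / 2) * (EE R Ω (δ * n ^ 2 / Complex.normSq Ω) (z q + t p) +
          EE R Ω (δ * n ^ 2 / Complex.normSq Ω) (z q - t p) -
          2 * EE R Ω (δ * n ^ 2 / Complex.normSq Ω) (z q)))) (𝓝[>] 0)
      (𝓝 (∑ q : R ⧸ sp (n : R), c q.out * ∑ p : R ⧸ sp (k : R),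
        ((1 / 2) * if p = 0 then 0 else Dd L (z q) (t p)))) := by
    refine tendsto_finsetSum _ fun q _ => ?_
    by_cases hq : c q.out = 0
    · simp only [hq, zero_mul]
      exact tendsto_const_nhds
    refine Tendsto.const_mul _ (tendsto_finsetSum _ fun p _ => Tendsto.const_mul _ ?_)
    have hqn : (q.out : R) ∉ sp (n : R) := fun h => hq (hc0 _ h)
    have hzq : z q ∉ L.lattice := fun h => hqn ((lat_div_iff hL n hn _).1 h)
    by_cases hp : p = 0
    · rw [if_pos hp]
      have htp : t p ∈ L.lattice := by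
        refine (lat_div_iff hL k hk0 _).2 ?_
        rw [← Ideal.Quotient.eq_zero_iff_mem, Ideal.Quotient.mk_out, hp]
      refine tendsto_const_nhds.congr fun δ => ?_
      have e1 : EE R Ω (δ * n ^ 2 / Complex.normSq Ω) (z q + t p) =
          EE R Ω (δ * n ^ 2 / Complex.normSq Ω) (z q) := by
        refine EE_per hL _ ?_
        rw [add_sub_cancel_left]
        exact htp
      have e2 : EE R Ω (δ * n ^ 2 / Complex.normSq Ω) (z q - t p) =
          EE R Ω (δ * n ^ 2 / Complex.normSq Ω) (z q) := by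
        refine EE_per hL _ ?_
        rw [sub_sub_cancel_left]
        exact neg_mem htp
      rw [e1, e2]
      ring
    · rw [if_neg hp]
      have hpn : (p.out : R) ∉ sp (k : R) := by
        intro h
        rw [← Ideal.Quotient.eq_zero_iff_mem, Ideal.Quotient.mk_out] at h
        exact hp h
      have htp : t p ∉ L.lattice := fun h => hpn ((lat_div_iff hL k hk0 _).1 h)
      have hmix : ∀ b : R, Ω * q.out / n + Ω * b / k ∉ L.lattice := by
        intro b hb
        obtain ⟨s, hs⟩ := (hL.mem _).1 hb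
        apply hqn
        have h1 : (k : R) * q.out + n * b = n * k * s := by
          apply Subtype.ext
          push_cast
          field_simp at hs
          linear_combination hs
        rw [Ideal.mem_span_singleton']
        refine ⟨k * s - b - m * q.out, ?_⟩
        have h2 : (k : R) = n * m + 1 := by rw [hk]; push_cast; ring
        have h3 : (k : R) * q.out = n * m * q.out + q.out := by rw [h2]; ring
        linear_combination h3 - h1
      refine (lim_Dd hL hzq htp (hmix _) ?_).comp hδl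
      have := hmix (-p.out)
      convert this using 2
      simp only [hz, ht]
      push_cast
      ring
  have hfin : (∑ q : R ⧸ sp (n : R), c q.out * ∑ p : R ⧸ sp (k : R),
        ((1 / 2) * if p = 0 then 0 else Dd L (z q) (t p))) = (1 / 2) * AA L Ω n k c := by
    unfold AA
    rw [Finset.mul_sum]
    refine Finset.sum_congr rfl fun q _ => ?_
    rw [← Finset.mul_sum]
    ring
  rw [← hfin]
  refine hlim.congr' ?_
  filter_upwards [self_mem_nhdsWithin] with δ (hδ : 0 < δ)
  rw [hid δ hδ]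

end Pool.Agent.TH936.CM
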