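import Pool.Agent.W366.HK.Fpr
import Pool.Agent.W192.HK.Asm
import Pool.Agent.W192.CY.Stm

/-!
# The number of ray class characters of bounded order
-/

set_option autoImplicit false

open Polynomial

namespace Pool.Agent.TH936.CM

open Pool.Agent.W192.HK Pool.Agent.W366.HK

variable {R : Subring ℂ} {ω : ℂ}

lemma od_dvd {χ : Ideal R → ℂ} {d : ℕ} (hd : Od χ d) {D : ℕ}
    (hD : ∀ I : Ideal R, χ I ≠ 0 → χ I ^ D = 1) : d ∣ D := by
  rw [Nat.dvd_iff_mod_eq_zero]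
  by_contra h
  have h1 : 0 < D % d := Nat.pos_of_ne_zero h
  have h2 := hd.least (D % d) h1 (fun I hI => by
    have h3 := hD I hI
    rw [← Nat.div_add_mod D d, pow_add, pow_mul, hd.pow I hI, one_pow, one_mul] at h3
    exact h3)
  have h3 := Nat.mod_lt D hd.pos
  omega

/-- the order divides `h |(R / c)ˣ|` -/
lemma rc_exp (h1 : H_BASIC) (hR : QR R ω) {h : ℕ} (hI : ∀ I : Ideal R, ∃ α : R, I ^ h = sp α)
    {c : Ideal R} {χ : Ideal R → ℂ} (hχ : RC c χ) (I : Ideal R) (hI0 : χ I ≠ 0) :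
    χ I ^ (h * Nat.card (R ⧸ c)ˣ) = 1 := by
  have : Finite (R ⧸ c) := (h1 R ω hR).1 c hχ.ne
  obtain ⟨α, hα⟩ := hI I
  have e1 : χ (sp α) = χ I ^ h := by
    rw [← hα]
    exact rc_pow c χ hχ I h
  have e2 : χ (sp α) ≠ 0 := by
    rw [e1]
    exact pow_ne_zero _ hI0
  have e3 : ¬ (sp α = ⊥ ∨ ¬ IsCoprime (sp α) c) := fun h' => e2 ((hχ.zero _).2 h')
  push Not at e3
  have hα0 : α ≠ 0 := by
    intro h0
    apply e3.1
    rw [h0]
    exact Ideal.span_singleton_eq_bot.2 rfl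
  have e4 := hχ.princ (α ^ Nat.card (R ⧸ c)ˣ) (pow_ne_zero _ hα0) (unit_pow c α e3.2)
  have e5 : sp (α ^ Nat.card (R ⧸ c)ˣ) = sp α ^ Nat.card (R ⧸ c)ˣ :=
    (Ideal.span_singleton_pow α _).symm
  rw [e5, rc_pow c χ hχ, e1, ← pow_mul] at e4
  exact e4

/-- a generator -/
lemma exists_gen_cyc (h1 : H_BASIC) (hR : QR R ω) {c : Ideal R} (hc : c ≠ ⊥)
    (hcyc : IsCyclic (R ⧸ c)ˣ) : ∃ g : R, g ≠ 0 ∧ IsCoprime (sp g) c ∧
      ∀ α : R, IsCoprime (sp α) c → ∃ j : ℕ, α - g ^ j ∈ c := by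
  have hfin : Finite (R ⧸ c) := (h1 R ω hR).1 c hc
  obtain ⟨u, hu⟩ := hcyc.exists_generator
  obtain ⟨g0, hg0⟩ := Ideal.Quotient.mk_surjective (u : R ⧸ c)
  obtain ⟨g, hg, hgne⟩ : ∃ g : R, Ideal.Quotient.mk c g = u ∧ g ≠ 0 := by
    by_cases h0 : g0 = 0
    · obtain ⟨γ, hγ, hγ0⟩ := Submodule.exists_mem_ne_zero_of_ne_bot hc
      refine ⟨γ, ?_, hγ0⟩
      rw [← hg0, h0, map_zero]
      exact Ideal.Quotient.eq_zero_iff_mem.2 hγ
    · exact ⟨g0, hg0, h0⟩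
  refine ⟨g, hgne, ?_, fun α hα => ?_⟩
  · obtain ⟨γ, hγ⟩ := Ideal.Quotient.mk_surjective ((u⁻¹ : (R ⧸ c)ˣ) : R ⧸ c)
    rw [cop_iff]
    refine ⟨γ, ?_⟩
    rw [← Ideal.Quotient.mk_eq_mk_iff_sub_mem, map_mul, map_one, hg, hγ, Units.mul_inv]
  obtain ⟨γ, hγ⟩ := (cop_iff c α).1 hα
  have h2 : Ideal.Quotient.mk c α * Ideal.Quotient.mk c γ = 1 := by
    rw [← map_mul, ← map_one (Ideal.Quotient.mk c), Ideal.Quotient.mk_eq_mk_iff_sub_mem]
    exact hγ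
  obtain ⟨v, hv⟩ : IsUnit (Ideal.Quotient.mk c α) := IsUnit.of_mul_eq_one _ h2
  obtain ⟨j, hj⟩ := (mem_powers_iff_mem_zpowers (x := u) (y := v)).2 (hu v)
  refine ⟨j, ?_⟩
  rw [← Ideal.Quotient.mk_eq_mk_iff_sub_mem, map_pow, hg, ← Units.val_pow_eq_pow_val]
  have h3 : u ^ j = v := hj
  rw [h3, hv]

/-- the number of characters killed by `d` -/
theorem cnt_d (h1 : H_BASIC) (h6 : H_CLS) (hR : QR R ω) : ∃ H : ℕ, 0 < H ∧ ∀ c : Ideal R,
    c ≠ ⊥ → IsCyclic (R ⧸ c)ˣ → ∀ d : ℕ, 0 < d →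
      {χ : Ideal R → ℂ | RC c χ ∧ ∀ I, χ I ≠ 0 → χ I ^ d = 1}.Finite ∧
      {χ : Ideal R → ℂ | RC c χ ∧ ∀ I, χ I ≠ 0 → χ I ^ d = 1}.ncard ≤ d * H := by
  classical
  obtain ⟨h, hh1, hpr, hsys⟩ := h6 R ω hR
  refine ⟨h ^ h, by positivity, fun c hc hcyc d hd => ?_⟩
  obtain ⟨s, hh, μ, T, hcard, hS⟩ := hsys c hc
  obtain ⟨g, hg0, hgc, hg⟩ := exists_gen_cyc h1 hR hc hcyc
  choose α hα using hpr
  have := hR.ded
  have hbne : ∀ b ∈ s, b ≠ ⊥ := hS.cs.ne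
  have hval : ∀ χ : Ideal R → ℂ, RC c χ → ∀ b ∈ s, χ b ≠ 0 := by
    intro χ hχ b hb h0
    rcases (hχ.zero b).1 h0 with h2 | h2
    · exact hbne b hb h2
    · exact h2 (hS.cp b hb)
  -- values at principal ideals
  have hsp : ∀ χ : Ideal R → ℂ, RC c χ → ∀ x : R, x ≠ 0 → ∀ j : ℕ, x - g ^ j ∈ c →
      χ (sp x) = χ (sp g) ^ j := by
    intro χ hχ x hx j hj
    rw [rc_per c χ hχ x (g ^ j) hx (pow_ne_zero _ hg0) hj, ← rc_pow c χ hχ (sp g) j]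
    congr 1
    exact (Ideal.span_singleton_pow g j).symm
  have hαb : ∀ b ∈ s, ∃ j : ℕ, α b - g ^ j ∈ c := by
    intro b hb
    refine hg _ ?_
    rw [← hα b]
    exact (hS.cp b hb).pow_left
  have hα0 : ∀ b ∈ s, α b ≠ 0 := by
    intro b hb h0
    have h2 := hα b
    have h4 : sp (0 : R) = ⊥ := by rw [Ideal.span_singleton_eq_bot]
    rw [h0, h4] at h2
    have h3 : b ^ h ≠ 0 := pow_ne_zero _ (by rw [Ideal.zero_eq_bot]; exact hbne b hb)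
    exact h3 h2
  have hj : ∀ b : Ideal R, ∃ j : ℕ, b ∈ s → α b - g ^ j ∈ c := by
    intro b
    by_cases hb : b ∈ s
    · obtain ⟨j, hj⟩ := hαb b hb
      exact ⟨j, fun _ => hj⟩
    · exact ⟨0, fun h => absurd h hb⟩
  choose J hJ using hj
  -- the pieces
  set A : ℂ → Set (Ideal R → ℂ) := fun ζ =>
    {χ : Ideal R → ℂ | RC c χ ∧ χ (sp g) = ζ} with hA
  have hpiece : ∀ ζ : ℂ, (A ζ).Finite ∧ (A ζ).ncard ≤ h ^ h := by
    intro ζ
    set P : Finset ((b : s) → ℂ) := Fintype.piFinset fun b : s =>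
      (nthRoots h (ζ ^ J b)).toFinset with hP
    have hmaps : Set.MapsTo (fun (χ : Ideal R → ℂ) (b : s) => χ b) (A ζ) (P : Set ((b : s) → ℂ)) := by
      intro χ hχ
      rw [Finset.mem_coe, hP, Fintype.mem_piFinset]
      intro b
      rw [Multiset.mem_toFinset, mem_nthRoots (by omega)]
      rw [← rc_pow c χ hχ.1, hα, hsp χ hχ.1 _ (hα0 b b.2) (J b) (hJ b b.2), hχ.2]
    have hinj : Set.InjOn (fun (χ : Ideal R → ℂ) (b : s) => χ b) (A ζ) := by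
      intro χ hχ χ' hχ' he
      funext I
      by_cases hI : χ I = 0
      · have h2 := (hχ.1.zero I).1 hI
        rw [hI, (hχ'.1.zero I).2 h2]
      · have h2 : ¬ (I = ⊥ ∨ ¬ IsCoprime I c) := fun h' => hI ((hχ.1.zero _).2 h')
        push Not at h2
        obtain ⟨b, ⟨hb, x, hx⟩, -⟩ := hS.cs.uni I h2.1
        have hxc : IsCoprime (sp x) c := by
          rw [← hx]
          exact h2.2.mul_left (hS.cp b hb)
        have hx0 : x ≠ 0 := by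
          intro h0
          have h4 : sp (0 : R) = ⊥ := by rw [Ideal.span_singleton_eq_bot]
          rw [h0, h4] at hx
          exact mul_ne_zero (by rw [Ideal.zero_eq_bot]; exact h2.1)
            (by rw [Ideal.zero_eq_bot]; exact hbne b hb) hx
        obtain ⟨j, hj⟩ := hg x hxc
        have e1 : χ I * χ b = ζ ^ j := by
          rw [← hχ.1.mul, hx, hsp χ hχ.1 x hx0 j hj, hχ.2]
        have e2 : χ' I * χ' b = ζ ^ j := by
          rw [← hχ'.1.mul, hx, hsp χ' hχ'.1 x hx0 j hj, hχ'.2]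
        have e3 : χ b = χ' b := congrFun he ⟨b, hb⟩
        rw [← e3] at e2
        exact mul_right_cancel₀ (hval χ hχ.1 b hb) (e1.trans e2.symm)
    have hfin : (A ζ).Finite := Set.Finite.of_injOn hmaps hinj P.finite_toSet
    refine ⟨hfin, ?_⟩
    have h3 := Set.ncard_le_ncard_of_injOn _ (fun a ha => hmaps ha) hinj P.finite_toSet
    rw [Set.ncard_coe_finset] at h3
    refine h3.trans ?_
    rw [hP, Fintype.card_piFinset]
    calc ∏ b : s, ((nthRoots h (ζ ^ J b)).toFinset).card ≤ ∏ _b : s, h :=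
          Finset.prod_le_prod' fun b _ => (Multiset.toFinset_card_le _).trans (card_nthRoots _ _)
      _ = h ^ h := by
          rw [Finset.prod_const, Finset.card_univ, Fintype.card_coe, hcard]
  have hgne : ∀ χ : Ideal R → ℂ, RC c χ → χ (sp g) ≠ 0 := by
    intro χ hχ h0
    rcases (hχ.zero (sp g)).1 h0 with h5 | h5
    · rw [Ideal.span_singleton_eq_bot] at h5
      exact hg0 h5
    · exact h5 hgc
  have hcover : {χ : Ideal R → ℂ | RC c χ ∧ ∀ I, χ I ≠ 0 → χ I ^ d = 1} ⊆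
      ⋃ ζ ∈ (nthRoots d (1 : ℂ)).toFinset, A ζ := by
    rintro χ ⟨hχ, hχd⟩
    simp only [Set.mem_iUnion]
    refine ⟨χ (sp g), ?_, hχ, rfl⟩
    rw [Multiset.mem_toFinset, mem_nthRoots hd]
    exact hχd _ (hgne χ hχ)
  have hfinU : (⋃ ζ ∈ (nthRoots d (1 : ℂ)).toFinset, A ζ).Finite :=
    Set.Finite.biUnion (Finset.finite_toSet _) fun ζ _ => (hpiece ζ).1
  refine ⟨hfinU.subset hcover, (Set.ncard_le_ncard hcover hfinU).trans ?_⟩
  refine (Finset.set_ncard_biUnion_le _ _).trans ?_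
  calc ∑ ζ ∈ (nthRoots d (1 : ℂ)).toFinset, (A ζ).ncard
      ≤ ∑ _ζ ∈ (nthRoots d (1 : ℂ)).toFinset, h ^ h := Finset.sum_le_sum fun ζ _ => (hpiece ζ).2
    _ = ((nthRoots d (1 : ℂ)).toFinset).card * h ^ h := by
        rw [Finset.sum_const, smul_eq_mul]
    _ ≤ d * h ^ h := Nat.mul_le_mul_right _
        ((Multiset.toFinset_card_le _).trans (card_nthRoots _ _))

/-- the number of characters of order at most `X` -/
theorem cnt_X (hdiv : Pool.Agent.W192.CY.S_DIV) (h1 : H_BASIC) (h6 : H_CLS) (hR : QR R ω)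
    (ε : ℝ) (hε : 0 < ε) : ∃ C : ℝ, 0 < C ∧ ∀ c : Ideal R, c ≠ ⊥ → IsCyclic (R ⧸ c)ˣ →
      ∀ X : ℝ, 0 ≤ X → {χ : Ideal R → ℂ | RC c χ ∧ ∀ d, Od χ d → (d : ℝ) ≤ X}.Finite ∧
      ({χ : Ideal R → ℂ | RC c χ ∧ ∀ d, Od χ d → (d : ℝ) ≤ X}.ncard : ℝ) ≤
        C * X * nm c ^ ε := by
  classical
  obtain ⟨H, hH, hcnt⟩ := cnt_d h1 h6 hR
  obtain ⟨Cd, hCd, hd1, -⟩ := hdiv ε hε
  have h6' := h6
  have h1' := h1
  obtain ⟨h, hh1, hpr, -⟩ := h6 R ω hR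
  obtain ⟨b1, -, b3, -⟩ := h1 R ω hR
  have hh0 : (0 : ℝ) < h := by exact_mod_cast hh1
  have hH0 : (0 : ℝ) < H := by exact_mod_cast hH
  refine ⟨H * (Cd * (h : ℝ) ^ ε), by positivity, fun c hc hcyc X hX => ?_⟩
  have hfinc := b1 c hc
  set D : ℕ := h * Nat.card (R ⧸ c)ˣ with hD
  have hD0 : 0 < D := Nat.mul_pos hh1 Nat.card_pos
  have hDle : (D : ℝ) ≤ h * nm c := by
    rw [hD]
    push_cast
    refine mul_le_mul_of_nonneg_left ?_ hh0.le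
    unfold nm
    have : Nat.card (R ⧸ c)ˣ ≤ Nat.card (R ⧸ c) :=
      Nat.card_le_card_of_injective (fun u : (R ⧸ c)ˣ => (u : R ⧸ c)) Units.val_injective
    exact_mod_cast this
  have hcover : {χ : Ideal R → ℂ | RC c χ ∧ ∀ d, Od χ d → (d : ℝ) ≤ X} ⊆
      ⋃ d ∈ D.divisors.filter (fun d : ℕ => (d : ℝ) ≤ X),
        {χ : Ideal R → ℂ | RC c χ ∧ ∀ I, χ I ≠ 0 → χ I ^ d = 1} := by
    rintro χ ⟨hχ, hχX⟩
    obtain ⟨-, -, -, d, hd⟩ := h_fpr h1' h6' R ω hR c χ hχ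
    simp only [Set.mem_iUnion]
    refine ⟨d, ?_, hχ, hd.pow⟩
    rw [Finset.mem_filter, Nat.mem_divisors]
    exact ⟨⟨od_dvd hd fun I hI => rc_exp h1' hR hpr hχ I hI, hD0.ne'⟩, hχX d hd⟩
  have hpos : ∀ d ∈ D.divisors.filter (fun d : ℕ => (d : ℝ) ≤ X), 0 < d := fun d hd =>
    Nat.pos_of_mem_divisors (Finset.mem_filter.1 hd).1
  have hfinU : (⋃ d ∈ D.divisors.filter (fun d : ℕ => (d : ℝ) ≤ X),
      {χ : Ideal R → ℂ | RC c χ ∧ ∀ I, χ I ≠ 0 → χ I ^ d = 1}).Finite :=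
    Set.Finite.biUnion (Finset.finite_toSet _) fun d hd => (hcnt c hc hcyc d (hpos d hd)).1
  refine ⟨hfinU.subset hcover, ?_⟩
  have h2 := (Set.ncard_le_ncard hcover hfinU).trans (Finset.set_ncard_biUnion_le _ _)
  have h3 : ((∑ d ∈ D.divisors.filter (fun d : ℕ => (d : ℝ) ≤ X),
      {χ : Ideal R → ℂ | RC c χ ∧ ∀ I, χ I ≠ 0 → χ I ^ d = 1}.ncard : ℕ) : ℝ) ≤
      D.divisors.card * (X * H) := by
    push_cast
    calc ∑ d ∈ D.divisors.filter (fun d : ℕ => (d : ℝ) ≤ X),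
        ({χ : Ideal R → ℂ | RC c χ ∧ ∀ I, χ I ≠ 0 → χ I ^ d = 1}.ncard : ℝ)
        ≤ ∑ _d ∈ D.divisors.filter (fun d : ℕ => (d : ℝ) ≤ X), X * H := by
          refine Finset.sum_le_sum fun d hd => ?_
          have h4 := (hcnt c hc hcyc d (hpos d hd)).2
          have h5 : (d : ℝ) ≤ X := (Finset.mem_filter.1 hd).2
          calc ({χ : Ideal R → ℂ | RC c χ ∧ ∀ I, χ I ≠ 0 → χ I ^ d = 1}.ncard : ℝ)
              ≤ ((d * H : ℕ) : ℝ) := by exact_mod_cast h4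
            _ = d * H := by push_cast; ring
            _ ≤ X * H := mul_le_mul_of_nonneg_right h5 hH0.le
      _ = ((D.divisors.filter (fun d : ℕ => (d : ℝ) ≤ X)).card : ℝ) * (X * H) := by
          rw [Finset.sum_const, nsmul_eq_mul]
      _ ≤ D.divisors.card * (X * H) := by
          refine mul_le_mul_of_nonneg_right ?_ (by positivity)
          exact_mod_cast Finset.card_le_card (Finset.filter_subset _ _)
  have h4 : (D.divisors.card : ℝ) ≤ Cd * ((h : ℝ) ^ ε * nm c ^ ε) := by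
    refine (hd1 D hD0).trans (mul_le_mul_of_nonneg_left ?_ hCd.le)
    have hnm : 0 ≤ nm c := nm_nonneg c
    rw [← Real.mul_rpow hh0.le hnm]
    exact Real.rpow_le_rpow (Nat.cast_nonneg _) hDle hε.le
  calc ({χ : Ideal R → ℂ | RC c χ ∧ ∀ d, Od χ d → (d : ℝ) ≤ X}.ncard : ℝ)
      ≤ _ := by exact_mod_cast h2
    _ ≤ D.divisors.card * (X * H) := h3
    _ ≤ (Cd * ((h : ℝ) ^ ε * nm c ^ ε)) * (X * H) :=
        mul_le_mul_of_nonneg_right h4 (by positivity)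
    _ = _ := by ring

end Pool.Agent.TH936.CM
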