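import Pool.Agent.TH936.CM.Cen

/-!
# Automorphisms of the complex numbers and the central values
-/

set_option autoImplicit false

open Filter
open scoped Topology PeriodPair

namespace Pool.Agent.TH936.CM

open H667R3 Pool.Agent.W245.EB Pool.Agent.W192.HK

variable {R : Subring ℂ} {L : PeriodPair} {Ω : ℂ}

/-- the class of a unit modulo `n` -/
noncomputable def uu (n : ℕ) (u v : R) (h : u * v - 1 ∈ sp (n : R)) : (R ⧸ sp (n : R))ˣ :=
  ⟨Ideal.Quotient.mk _ u, Ideal.Quotient.mk _ v, by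
    rw [← map_mul, ← map_one (Ideal.Quotient.mk (sp (n : R))),
      Ideal.Quotient.mk_eq_mk_iff_sub_mem]
    exact h, by
    rw [mul_comm, ← map_mul, ← map_one (Ideal.Quotient.mk (sp (n : R))),
      Ideal.Quotient.mk_eq_mk_iff_sub_mem]
    exact h⟩

lemma uu_out (n : ℕ) (u v : R) (h : u * v - 1 ∈ sp (n : R)) (q : R ⧸ sp (n : R)) :
    ((uu n u v h : R ⧸ sp (n : R)) * q).out - u * q.out ∈ sp (n : R) := by
  have h1 := out_sub (sp (n : R)) (u * q.out)
  have h2 : Ideal.Quotient.mk (sp (n : R)) (u * q.out) = (uu n u v h : R ⧸ sp (n : R)) * q := by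
    rw [map_mul, Ideal.Quotient.mk_out]
    rfl
  rwa [h2] at h1

lemma Dd_per {z z' t t' : ℂ} (h1 : z' - z ∈ L.lattice) (h2 : t' - t ∈ L.lattice) :
    Dd L z' t' = Dd L z t := by
  have e1 : z' = z + (z' - z) := by ring
  have e2 : t' = t + (t' - t) := by ring
  unfold Dd
  rw [e1, e2, wp_add_lattice L h1, wp'_add_lattice L h1, wp_add_lattice L h2]

lemma Dd_map {σ : ℂ ≃+* ℂ} {z z' t t' : ℂ} (h1 : Rl L σ z z') (h2 : Rl L σ t t')
    (hz : z ∉ L.lattice) (ht : t ∉ L.lattice) : σ (Dd L z t) = Dd L z' t' := by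
  unfold Dd
  obtain ⟨a1, a2⟩ := h1.vals hz
  obtain ⟨b1, -⟩ := h2.vals ht
  rw [map_div₀, map_sub, a1, a2, b1]

set_option maxHeartbeats 1000000 in
theorem AA_map (hL : IsLat L R Ω) {σ : ℂ ≃+* ℂ} {n k : ℕ} (hn : 0 < n) (hk : 0 < k)
    [Fintype (R ⧸ sp (n : R))] [Fintype (R ⧸ sp (k : R))] {u v : R}
    (huv : u * v - 1 ∈ sp ((n * k : ℕ) : R))
    (hu : ∀ r : R, Rl L σ (Ω * r / (n * k : ℕ)) (Ω * (u * r : R) / (n * k : ℕ)))
    {c c' : R → ℂ} (hcc : ∀ x, σ (c x) = c' x)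
    (hc' : ∀ a b : R, a - b ∈ sp (n : R) → c' a = c' b)
    (hc0 : ∀ a ∈ sp (n : R), c' a = 0) {e : ℂ} (he : ∀ x, c' (u * x) = e * c' x) :
    e * σ (AA L Ω n k c) = AA L Ω n k c' := by
  classical
  have hnC : (n : ℂ) ≠ 0 := by exact_mod_cast hn.ne'
  have hkC : (k : ℂ) ≠ 0 := by exact_mod_cast hk.ne'
  have hsub : ∀ m : ℕ, m ∣ n * k → u * v - 1 ∈ sp (m : R) := by
    intro m hm
    obtain ⟨a, ha⟩ := hm
    obtain ⟨w, hw⟩ := Ideal.mem_span_singleton'.1 huv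
    rw [Ideal.mem_span_singleton']
    refine ⟨w * a, ?_⟩
    rw [← hw, ha]
    push_cast
    ring
  have hun := hsub n (Dvd.intro _ rfl)
  have huk := hsub k (Dvd.intro_left _ rfl)
  have hz : ∀ r : R, Rl L σ (Ω * r / n) (Ω * (u * r : R) / n) := by
    intro r
    have h1 := hu (k * r)
    have e1 : Ω * ((k * r : R) : ℂ) / (n * k : ℕ) = Ω * r / n := by
      push_cast
      field_simp
    have e2 : Ω * ((u * (k * r) : R) : ℂ) / (n * k : ℕ) = Ω * (u * r : R) / n := by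
      push_cast
      field_simp
    rwa [e1, e2] at h1
  have ht : ∀ r : R, Rl L σ (Ω * r / k) (Ω * (u * r : R) / k) := by
    intro r
    have h1 := hu (n * r)
    have e1 : Ω * ((n * r : R) : ℂ) / (n * k : ℕ) = Ω * r / k := by
      push_cast
      field_simp
    have e2 : Ω * ((u * (n * r) : R) : ℂ) / (n * k : ℕ) = Ω * (u * r : R) / k := by
      push_cast
      field_simp
    rwa [e1, e2] at h1
  unfold AA
  rw [map_sum, Finset.mul_sum, ← Equiv.sum_comp (Units.mulLeft (uu n u v hun))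
    (fun q : R ⧸ sp (n : R) => c' q.out * ∑ p : R ⧸ sp (k : R),
      if p = 0 then 0 else Dd L (Ω * q.out / n) (Ω * p.out / k))]
  refine Finset.sum_congr rfl fun q _ => ?_
  rw [map_mul, hcc, map_sum, ← mul_assoc, ← he, Units.mulLeft_apply,
    ← hc' _ _ (uu_out n u v hun q)]
  by_cases hq : c' ((uu n u v hun : R ⧸ sp (n : R)) * q).out = 0
  · rw [hq, zero_mul, zero_mul]
  congr 1
  have hqn : (q.out : R) ∉ sp (n : R) := by
    intro h
    apply hq
    rw [hc' _ _ (uu_out n u v hun q), he, hc0 _ h, mul_zero]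
  have hzq : Ω * (q.out : R) / n ∉ L.lattice := fun h => hqn ((lat_div_iff hL n hn _).1 h)
  rw [← Equiv.sum_comp (Units.mulLeft (uu k u v huk))
    (fun p : R ⧸ sp (k : R) => if p = 0 then 0 else
      Dd L (Ω * (((uu n u v hun : R ⧸ sp (n : R)) * q).out : R) / n) (Ω * p.out / k))]
  refine Finset.sum_congr rfl fun p _ => ?_
  rw [Units.mulLeft_apply]
  beta_reduce
  by_cases hp : p = 0
  · rw [if_pos hp, hp, mul_zero, if_pos rfl, map_zero]
  · have hp' : (uu k u v huk : R ⧸ sp (k : R)) * p ≠ 0 := by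
      intro h
      exact hp ((Units.mul_right_eq_zero _).1 h)
    rw [if_neg hp, if_neg hp']
    have hpn : (p.out : R) ∉ sp (k : R) := by
      intro h
      rw [← Ideal.Quotient.eq_zero_iff_mem, Ideal.Quotient.mk_out] at h
      exact hp h
    have htp : Ω * (p.out : R) / k ∉ L.lattice := fun h => hpn ((lat_div_iff hL k hk _).1 h)
    rw [Dd_map (hz q.out) (ht p.out) hzq htp]
    refine (Dd_per ?_ ?_).symm
    · exact lat_sub hL hn (uu_out n u v hun q)
    · exact lat_sub hL hk (uu_out k u v huk p)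

theorem gal (h2 : H_FP) {ω : ℂ} (hR : QR R ω) (hL : IsLat L R Ω) {q : Ideal R}
    {s : Finset (Ideal R)} {n k : ℕ} (hn : 0 < n) (hk : 0 < k) (hnq : (n : R) ∈ q)
    (hnb : ∀ b ∈ s, (n : R) ∈ b) [Fintype (R ⧸ sp (n : R))] [Fintype (R ⧸ sp (k : R))]
    (hfin : Finite (R ⧸ sp ((n * k : ℕ) : R))) {σ : ℂ ≃+* ℂ} (hσR : ∀ r : R, σ (r : ℂ) = r)
    (hσ2 : σ L.g₂ = L.g₂) (hσ3 : σ L.g₃ = L.g₃)
    (hlin : ∀ z z', Rl L σ z z' → ∀ r : R, Rl L σ (r * z) (r * z')) {θ θ' : Ideal R → ℂ}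
    (hθ : HC 1 q θ) (hθ' : HC 1 q θ') (hσθ : ∀ I, σ (θ I) = θ' I) :
    ∑ b ∈ s, θ b * AA L Ω n k (cb θ b) = 0 ↔ ∑ b ∈ s, θ' b * AA L Ω n k (cb θ' b) = 0 := by
  have hnk : 0 < n * k := Nat.mul_pos hn hk
  obtain ⟨u, v, huv, hu⟩ := exists_unit hL σ hσ2 hσ3 hlin (n * k) hnk hfin
  have hq1 : HC (2 * 1 - 1) q θ := hθ
  have hq1' : HC (2 * 1 - 1) q θ' := hθ'
  have hqt := hq1.ne_top le_rfl
  obtain ⟨-, f2, f3, f4, f5⟩ := h2 R ω hR 1 q θ hθ hqt
  obtain ⟨-, f2', f3', f4', f5'⟩ := h2 R ω hR 1 q θ' hθ' hqt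
  have hfp : ∀ x : R, σ (fp 1 θ x) = fp 1 θ' x := by
    intro x
    unfold fp
    rw [map_div₀, map_pow, hσθ, hσR]
  have hconj : ∀ (φ : Ideal R → ℂ), (∀ α : R, fp 1 φ α = 0 ↔ ¬ IsCoprime (sp α) q) →
      (∀ α : R, IsCoprime (sp α) q → ‖fp 1 φ α‖ = 1) → ∀ x : R,
      (starRingEnd ℂ) (fp 1 φ x) = (fp 1 φ x)⁻¹ := by
    intro φ g3 g4 x
    by_cases h : IsCoprime (sp x) q
    · have h6 := g4 x h
      rw [Complex.inv_def, Complex.normSq_eq_norm_sq, h6]
      simp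
    · rw [(g3 x).2 h, map_zero, inv_zero]
  have hcc : ∀ b x, σ (cb θ b x) = cb θ' b x := by
    intro b x
    unfold cb
    split_ifs
    · rw [hconj θ f3 f4, hconj θ' f3' f4', map_inv₀, hfp]
    · exact map_zero σ
  -- `u` is a unit modulo `q`
  have hin : ∀ I : Ideal R, (n : R) ∈ I → u * v - 1 ∈ I := by
    intro I hI
    obtain ⟨w, hw⟩ := Ideal.mem_span_singleton'.1 huv
    rw [← hw]
    push_cast
    rw [← mul_assoc]
    exact I.mul_mem_right _ (I.mul_mem_left _ hI)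
  have hucop : IsCoprime (sp u) q := by
    rw [Ideal.isCoprime_iff_sup_eq, Ideal.eq_top_iff_one]
    have h6 : (1 : R) = u * v - (u * v - 1) := by ring
    rw [h6]
    refine Ideal.sub_mem _ ?_ (Ideal.mem_sup_right (hin q hnq))
    exact Ideal.mem_sup_left (Ideal.mul_mem_right _ _ (Ideal.mem_span_singleton_self u))
  set e : ℂ := (starRingEnd ℂ) (fp 1 θ' u) with he
  have he0 : e ≠ 0 := by
    rw [he]
    refine (map_ne_zero _).2 ?_
    rw [Ne, f3', not_not]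
    exact hucop
  have hmem : ∀ b ∈ s, ∀ x : R, u * x ∈ b ↔ x ∈ b := by
    intro b hb x
    constructor
    · intro h
      have h6 : x = v * (u * x) - (u * v - 1) * x := by ring
      rw [h6]
      exact b.sub_mem (b.mul_mem_left _ h) (b.mul_mem_right _ (hin b (hnb b hb)))
    · exact fun h => b.mul_mem_left _ h
  have hcu : ∀ b ∈ s, ∀ x : R, cb θ' b (u * x) = e * cb θ' b x := by
    intro b hb x
    unfold cb
    by_cases hx : x ∈ b
    · rw [if_pos hx, if_pos ((hmem b hb x).2 hx), f2', map_mul]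
    · rw [if_neg hx, if_neg (fun h => hx ((hmem b hb x).1 h)), mul_zero]
  have hmain : e * σ (∑ b ∈ s, θ b * AA L Ω n k (cb θ b)) =
      ∑ b ∈ s, θ' b * AA L Ω n k (cb θ' b) := by
    rw [map_sum, Finset.mul_sum]
    refine Finset.sum_congr rfl fun b hb => ?_
    obtain ⟨g1, g2, -⟩ := cb_facts h2 hR hθ' hnq (hnb b hb)
    rw [map_mul, hσθ, mul_left_comm, AA_map hL hn hk huv hu (hcc b) g1 g2 (hcu b hb)]
  constructor
  · intro h
    rw [← hmain, h, map_zero, mul_zero]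
  · intro h
    rw [h] at hmain
    exact (map_eq_zero σ).1 ((mul_eq_zero.1 hmain).resolve_left he0)

end Pool.Agent.TH936.CM
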