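import Pool.Agent.TH936.CM.Act
import Pool.Agent.H294ZP.Main

/-!
# Lattices with complex multiplication and algebraic invariants
-/

set_option autoImplicit false

open UpperHalfPlane ModularForm EisensteinSeries

namespace Pool.Agent.TH936.CM

open Pool.Agent.W192.HK

variable {R : Subring ℂ} {ω Ω : ℂ}

/-- the lattice `Ω (ℤ + ℤ ω)` -/
noncomputable def mkL (ω Ω : ℂ) (hω : 0 < ω.im) (hΩ : Ω ≠ 0) : PeriodPair where
  ω₁ := Ω
  ω₂ := Ω * ω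
  indep := by
    rw [LinearIndependent.pair_iff]
    intro s t h
    have h1 : Ω * ((s : ℂ) + t * ω) = 0 := by
      simp only [Complex.real_smul] at h
      linear_combination h
    have h2 := (mul_eq_zero.1 h1).resolve_left hΩ
    have h3 := congrArg Complex.im h2
    simp at h3
    have ht : t = 0 := h3.resolve_right hω.ne'
    refine ⟨?_, ht⟩
    rw [ht] at h2
    simpa using h2

lemma mkL_isLat (hR : QR R ω) (hΩ : Ω ≠ 0) : IsLat (mkL ω Ω hR.im hΩ) R Ω := by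
  refine ⟨hΩ, fun z => ?_⟩
  rw [PeriodPair.mem_lattice]
  constructor
  · rintro ⟨m, n, rfl⟩
    refine ⟨⟨m + n * ω, (hR.mem _).2 ⟨m, n, rfl⟩⟩, ?_⟩
    show (m : ℂ) * Ω + n * (Ω * ω) = Ω * (m + n * ω)
    ring
  · rintro ⟨r, rfl⟩
    obtain ⟨x, y, h⟩ := (hR.mem r).1 r.2
    refine ⟨x, y, ?_⟩
    rw [h]
    show (x : ℂ) * Ω + y * (Ω * ω) = Ω * (x + y * ω)
    ring

/-- the elements of the lattice -/
noncomputable def latV (ω Ω : ℂ) (hω : 0 < ω.im) (hΩ : Ω ≠ 0) :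
    (Fin 2 → ℤ) ≃ (mkL ω Ω hω hΩ).lattice :=
  Equiv.ofBijective (fun v => ⟨Ω * (v 0 * ω + v 1), PeriodPair.mem_lattice.2 ⟨v 1, v 0, by
    show (v 1 : ℂ) * Ω + v 0 * (Ω * ω) = _
    ring⟩⟩) ⟨by
    intro v w h
    have h1 : Ω * ((v 0 : ℂ) * ω + v 1) = Ω * (w 0 * ω + w 1) := congrArg Subtype.val h
    have h2 := mul_left_cancel₀ hΩ h1
    have h3 := congrArg Complex.im h2
    simp at h3
    have h4 : v 0 = w 0 := by
      rcases h3 with h3 | h3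
      · exact_mod_cast h3
      · exact absurd h3 hω.ne'
    have h5 : v 1 = w 1 := by
      rw [h4] at h2
      have := add_left_cancel h2
      exact_mod_cast this
    funext i
    fin_cases i
    · exact h4
    · exact h5, by
    intro l
    obtain ⟨m, n, h⟩ := PeriodPair.mem_lattice.1 l.2
    refine ⟨![n, m], Subtype.ext ?_⟩
    rw [← h]
    show Ω * ((n : ℂ) * ω + m) = (m : ℂ) * Ω + n * (Ω * ω)
    ring⟩

lemma G_eq (hω : 0 < ω.im) (hΩ : Ω ≠ 0) {k : ℕ} (hk : 3 ≤ k) :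
    (mkL ω Ω hω hΩ).G k = (Ω ^ k)⁻¹ * (2 * riemannZeta k * E hk ⟨ω, hω⟩) := by
  have h1 := tsum_eisSummand_eq_riemannZeta_mul_eisensteinSeries hk (⟨ω, hω⟩ : ℍ)
  have h2 : E hk (⟨ω, hω⟩ : ℍ) = (1 / 2 : ℂ) * eisensteinSeries (N := 1) 0 k ⟨ω, hω⟩ := rfl
  have h3 : 2 * riemannZeta k * E hk (⟨ω, hω⟩ : ℍ) =
      ∑' v : Fin 2 → ℤ, eisSummand k v (⟨ω, hω⟩ : ℍ) := by
    rw [h1, h2]
    ring
  rw [h3, ← tsum_mul_left]
  unfold PeriodPair.G
  rw [← (latV ω Ω hω hΩ).tsum_eq]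
  refine tsum_congr fun v => ?_
  have h4 : (((latV ω Ω hω hΩ) v : (mkL ω Ω hω hΩ).lattice) : ℂ) = Ω * (v 0 * ω + v 1) := rfl
  rw [h4, mul_pow, mul_inv]
  congr 1
  unfold eisSummand
  rw [zpow_neg, zpow_natCast]

lemma isCM (hR : QR R ω) : H294ZP.IsCM ⟨ω, hR.im⟩ := by
  have h1 : ω ∈ R := QR.om_mem hR
  obtain ⟨x, y, h⟩ := (hR.mem _).1 (R.mul_mem h1 h1)
  refine ⟨1, -y, -x, one_ne_zero, ?_⟩
  show ((1 : ℤ) : ℂ) * ω ^ 2 + ((-y : ℤ) : ℂ) * ω + ((-x : ℤ) : ℂ) = 0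
  push_cast
  linear_combination h

/-- **Lattices with algebraic invariants.** -/
theorem exists_alg_lattice (hR : QR R ω) : ∃ (L : PeriodPair) (Ω : ℂ), IsLat L R Ω ∧
    IsAlgebraic ℚ L.g₂ ∧ IsAlgebraic ℚ L.g₃ := by
  set τ : ℍ := ⟨ω, hR.im⟩ with hτ
  have hj : IsIntegral ℤ (H294ZP.jj τ) := H294ZP.singular_modulus_integral τ (isCM hR)
  have hΔ : discriminant τ ≠ 0 := discriminant_ne_zero τ
  have hΔE := discriminant_eq_E₄_cube_sub_E₆_sq τ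
  have hz4 : riemannZeta (4 : ℕ) ≠ 0 := riemannZeta_ne_zero_of_one_lt_re (by norm_num)
  have hz6 : riemannZeta (6 : ℕ) ≠ 0 := riemannZeta_ne_zero_of_one_lt_re (by norm_num)
  have hg2 : ∀ (Ω : ℂ) (hΩ : Ω ≠ 0), (mkL ω Ω hR.im hΩ).g₂ =
      (Ω ^ 4)⁻¹ * (120 * riemannZeta (4 : ℕ) * E₄ τ) := by
    intro Ω hΩ
    unfold PeriodPair.g₂
    rw [G_eq hR.im hΩ (k := 4) (by norm_num)]
    ring
  have hg3 : ∀ (Ω : ℂ) (hΩ : Ω ≠ 0), (mkL ω Ω hR.im hΩ).g₃ =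
      (Ω ^ 6)⁻¹ * (280 * riemannZeta (6 : ℕ) * E₆ τ) := by
    intro Ω hΩ
    unfold PeriodPair.g₃
    rw [G_eq hR.im hΩ (k := 6) (by norm_num)]
    ring
  by_cases h4 : E₄ τ = 0
  · have h6 : E₆ τ ≠ 0 := by
      intro h6
      apply hΔ
      rw [hΔE, h4, h6]
      norm_num
    obtain ⟨Ω, hΩ⟩ := IsAlgClosed.exists_pow_nat_eq (280 * riemannZeta (6 : ℕ) * E₆ τ)
      (n := 6) (by norm_num)
    have hc : 280 * riemannZeta (6 : ℕ) * E₆ τ ≠ 0 :=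
      mul_ne_zero (mul_ne_zero (by norm_num) hz6) h6
    have hΩ0 : Ω ≠ 0 := by
      rintro rfl
      rw [zero_pow (by norm_num)] at hΩ
      exact hc hΩ.symm
    refine ⟨mkL ω Ω hR.im hΩ0, Ω, mkL_isLat hR hΩ0, ?_, ?_⟩
    · rw [hg2 Ω hΩ0, h4, mul_zero, mul_zero]
      exact isAlgebraic_zero
    · rw [hg3 Ω hΩ0, hΩ, inv_mul_cancel₀ hc]
      exact isAlgebraic_one
  · obtain ⟨Ω, hΩ⟩ := IsAlgClosed.exists_pow_nat_eq (120 * riemannZeta (4 : ℕ) * E₄ τ)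
      (n := 4) (by norm_num)
    have hc : 120 * riemannZeta (4 : ℕ) * E₄ τ ≠ 0 :=
      mul_ne_zero (mul_ne_zero (by norm_num) hz4) h4
    have hΩ0 : Ω ≠ 0 := by
      rintro rfl
      rw [zero_pow (by norm_num)] at hΩ
      exact hc hΩ.symm
    refine ⟨mkL ω Ω hR.im hΩ0, Ω, mkL_isLat hR hΩ0, ?_, ?_⟩
    · rw [hg2 Ω hΩ0, hΩ, inv_mul_cancel₀ hc]
      exact isAlgebraic_one
    · have hpi : (Real.pi : ℂ) ≠ 0 := by exact_mod_cast Real.pi_ne_zero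
      have e4 : riemannZeta (4 : ℕ) = Real.pi ^ 4 / 90 := by
        rw [← riemannZeta_four]
        norm_num
      obtain ⟨r, hr⟩ : ∃ r : ℚ, riemannZeta (6 : ℕ) = r * Real.pi ^ 6 := by
        have h7 := riemannZeta_two_mul_nat (k := 3) (by norm_num)
        refine ⟨(-1) ^ (3 + 1) * 2 ^ (2 * 3 - 1) * bernoulli (2 * 3) / ((2 * 3).factorial : ℚ), ?_⟩
        have h8 : ((6 : ℕ) : ℂ) = 2 * ((3 : ℕ) : ℂ) := by norm_num
        rw [h8, h7]
        push_cast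
        ring
      have hjne : H294ZP.jj τ ≠ 0 := by
        unfold H294ZP.jj
        exact div_ne_zero (pow_ne_zero 3 h4) hΔ
      have hrat : E₆ τ ^ 2 / E₄ τ ^ 3 = 1 - 1728 / H294ZP.jj τ := by
        unfold H294ZP.jj
        have h9 : E₆ τ ^ 2 = E₄ τ ^ 3 - 1728 * discriminant τ := by
          rw [hΔE]
          ring
        rw [h9]
        field_simp
      have hsq : (mkL ω Ω hR.im hΩ0).g₃ ^ 2 = ((280 * r) ^ 2 * 27 / 64 : ℚ) *
          (1 - 1728 / H294ZP.jj τ) := by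
        rw [hg3 Ω hΩ0, ← hrat, hr, mul_pow]
        have h10 : ((Ω ^ 6)⁻¹) ^ 2 = ((120 * riemannZeta (4 : ℕ) * E₄ τ) ^ 3)⁻¹ := by
          rw [← hΩ, inv_pow, ← pow_mul, ← pow_mul]
        rw [h10, e4]
        push_cast
        field_simp
        ring
      have halg : IsAlgebraic ℚ ((mkL ω Ω hR.im hΩ0).g₃ ^ 2) := by
        rw [hsq]
        have h11 : IsAlgebraic ℚ (H294ZP.jj τ) := (hj.tower_top (A := ℚ)).isAlgebraic
        have h12 : H294ZP.jj τ ∈ Pool.Agent.W245.EB.QB := Pool.Agent.W245.EB.mem_QB.2 h11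
        rw [← Pool.Agent.W245.EB.mem_QB]
        refine mul_mem ?_ (sub_mem (one_mem _) (div_mem (ofNat_mem _ 1728) h12))
        rw [Pool.Agent.W245.EB.mem_QB]
        exact isAlgebraic_algebraMap (R := ℚ) (A := ℂ) _
      exact IsAlgebraic.of_pow two_pos halg

end Pool.Agent.TH936.CM
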