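import Pool.Agent.TH936.CM.Sec

/-!
# The regularized Eisenstein series of weight one
-/

set_option autoImplicit false

open Filter
open scoped Topology PeriodPair

namespace Pool.Agent.TH936.CM

open H667R3 Pool.Agent.W192.HK

variable {L : PeriodPair} {R : Subring ℂ} {Ω : ℂ}

/-- the elements of the lattice -/
noncomputable def latE (hL : IsLat L R Ω) : R ≃ L.lattice :=
  Equiv.ofBijective (fun r => ⟨Ω * r, hL.mem_mul r⟩) ⟨fun a b h => by
    have h1 : Ω * (a : ℂ) = Ω * b := congrArg Subtype.val h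
    exact Subtype.ext (mul_left_cancel₀ hL.ne h1), fun l => by
    obtain ⟨r, hr⟩ := (hL.mem l).1 l.2
    exact ⟨r, Subtype.ext hr.symm⟩⟩

lemma latE_coe (hL : IsLat L R Ω) (r : R) : ((latE hL r : L.lattice) : ℂ) = Ω * r := rfl

lemma summ3 (hL : IsLat L R Ω) (z : ℂ) : Summable (fun β : R => (‖z + Ω * β‖ ^ 3)⁻¹) := by
  have h1 := ZLattice.summable_norm_sub_zpow L.lattice (-3) (by simp) (-z)
  have h2 := ((latE hL).summable_iff (f := fun l : L.lattice => ‖(l : ℂ) - -z‖ ^ (-3 : ℤ))).2 h1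
  refine h2.congr fun β => ?_
  simp only [Function.comp_apply, latE_coe]
  rw [sub_neg_eq_add, add_comm z, zpow_neg]
  norm_cast

lemma summ_fd (hL : IsLat L R Ω) (z : ℂ) {δ : ℝ} (hδ : 0 < δ) :
    Summable (fun β : R => fd δ (z + Ω * β)) :=
  Summable.of_norm_bounded ((summ3 hL z).mul_left δ⁻¹) fun _ => fd_bound δ hδ _

/-- the regularized Eisenstein series -/
noncomputable def EE (R : Subring ℂ) (Ω : ℂ) (δ : ℝ) (z : ℂ) : ℂ := ∑' β : R, fd δ (z + Ω * β)

lemma EE_add (δ : ℝ) (z : ℂ) (r : R) : EE R Ω δ (z + Ω * r) = EE R Ω δ z := by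
  unfold EE
  rw [← (Equiv.addLeft r).tsum_eq (fun β : R => fd δ (z + Ω * β))]
  refine tsum_congr fun β => ?_
  congr 1
  rw [Equiv.coe_addLeft]
  push_cast
  ring

lemma EE_per (hL : IsLat L R Ω) (δ : ℝ) {z w : ℂ} (h : w - z ∈ L.lattice) :
    EE R Ω δ w = EE R Ω δ z := by
  obtain ⟨r, hr⟩ := (hL.mem _).1 h
  have : w = z + Ω * r := by rw [← hr]; ring
  rw [this, EE_add]

/-! ### partitions modulo an integer -/

/-- the decomposition `α = q.out + n β` -/
noncomputable def prt (n : ℕ) (hn : 0 < n) : (R ⧸ sp (n : R)) × R ≃ R :=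
  Equiv.ofBijective (fun p => p.1.out + n * p.2) ⟨by
    rintro ⟨p, a⟩ ⟨q, b⟩ h
    have h1 : p.out + (n : R) * a = q.out + n * b := h
    have h2 : p = q := by
      rw [← Ideal.Quotient.mk_out p, ← Ideal.Quotient.mk_out q, Ideal.Quotient.mk_eq_mk_iff_sub_mem,
        Ideal.mem_span_singleton']
      exact ⟨b - a, by linear_combination -h1⟩
    subst h2
    have h3 : (n : R) * a = n * b := by linear_combination h1
    have hn0 : (n : R) ≠ 0 := by
      intro h4
      have h5 := congrArg Subtype.val h4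
      push_cast at h5
      exact hn.ne' (by exact_mod_cast h5)
    rw [mul_left_cancel₀ hn0 h3], by
    intro α
    have h1 : α - (Ideal.Quotient.mk (sp (n : R)) α).out ∈ sp (n : R) := by
      rw [← Ideal.Quotient.mk_eq_mk_iff_sub_mem, Ideal.Quotient.mk_out]
    rw [Ideal.mem_span_singleton'] at h1
    obtain ⟨b, hb⟩ := h1
    exact ⟨⟨Ideal.Quotient.mk (sp (n : R)) α, b⟩, by
      show (Ideal.Quotient.mk (sp (n : R)) α).out + n * b = α
      linear_combination hb⟩⟩

lemma prt_apply (n : ℕ) (hn : 0 < n) (p : (R ⧸ sp (n : R)) × R) :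
    prt n hn p = p.1.out + n * p.2 := rfl

lemma tsum_prt (n : ℕ) (hn : 0 < n) [Fintype (R ⧸ sp (n : R))] (F : R → ℂ) (hF : Summable F) :
    ∑' α : R, F α = ∑ q : R ⧸ sp (n : R), ∑' β : R, F (q.out + n * β) := by
  have h1 : Summable (fun p : (R ⧸ sp (n : R)) × R => F (p.1.out + n * p.2)) :=
    ((prt n hn).summable_iff (f := F)).2 hF
  rw [← (prt n hn).tsum_eq F]
  have h2 := h1.tsum_prod' (fun q => h1.prod_factor q)
  exact h2.trans (tsum_fintype _)

/-- the distribution relation -/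
theorem EE_dist (hL : IsLat L R Ω) {δ : ℝ} (hδ : 0 < δ) (k : ℕ) (hk : 0 < k)
    [Fintype (R ⧸ sp (k : R))] (z : ℂ) :
    ∑ q : R ⧸ sp (k : R), EE R Ω δ (z + Ω * q.out / k) = k * EE R Ω (δ / k ^ 2) (k * z) := by
  have hk0 : (k : ℂ) ≠ 0 := by exact_mod_cast hk.ne'
  have hkr : (0 : ℝ) < k := by exact_mod_cast hk
  have e1 : ∀ α : R, fd δ (z + Ω * α / k) = k * fd (δ / k ^ 2) (k * z + Ω * α) := by
    intro α
    have h1 : z + Ω * α / k = (k : ℂ)⁻¹ * (k * z + Ω * α) := by field_simp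
    rw [h1, fd_mul, inv_inv]
    congr 2
    rw [Complex.normSq_inv, Complex.normSq_natCast]
    field_simp
  have hs : Summable (fun α : R => fd δ (z + Ω * α / k)) := by
    refine ((summ_fd hL (k * z) (δ := δ / k ^ 2) (by positivity)).mul_left (k : ℂ)).congr
      fun α => ?_
    rw [e1]
  have h2 := tsum_prt k hk _ hs
  have h3 : ∑' α : R, fd δ (z + Ω * α / k) = k * EE R Ω (δ / k ^ 2) (k * z) := by
    rw [tsum_congr e1, tsum_mul_left]
    rfl
  rw [← h3, h2]
  refine Finset.sum_congr rfl fun q _ => ?_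
  unfold EE
  refine tsum_congr fun β => ?_
  congr 1
  push_cast
  field_simp
  ring

/-- sums of periodic functions -/
theorem sum_EE (hL : IsLat L R Ω) {δ : ℝ} (n : ℕ) (hn : 0 < n)
    [Fintype (R ⧸ sp (n : R))] (c : R → ℂ) (hc : ∀ a b : R, a - b ∈ sp (n : R) → c a = c b)
    (hcs : Summable (fun α : R => c α * fd δ (α : ℂ))) :
    ∑' α : R, c α * fd δ (α : ℂ) = (Ω / n) * ∑ q : R ⧸ sp (n : R),
      c q.out * EE R Ω (δ * n ^ 2 / Complex.normSq Ω) (Ω * q.out / n) := by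
  have hn0 : (n : ℂ) ≠ 0 := by exact_mod_cast hn.ne'
  have hΩ := hL.ne
  rw [tsum_prt n hn _ hcs, Finset.mul_sum]
  refine Finset.sum_congr rfl fun q _ => ?_
  unfold EE
  rw [← tsum_mul_left, ← tsum_mul_left]
  refine tsum_congr fun β => ?_
  have e1 : c (q.out + n * β) = c q.out := by
    refine hc _ _ ?_
    rw [add_sub_cancel_left, Ideal.mem_span_singleton']
    exact ⟨β, by ring⟩
  have e2 : ((q.out + n * β : R) : ℂ) = (n / Ω) * (Ω * q.out / n + Ω * β) := by
    push_cast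
    field_simp
  rw [e1, e2, fd_mul, inv_div]
  have e3 : δ * Complex.normSq ((n : ℂ) / Ω) = δ * n ^ 2 / Complex.normSq Ω := by
    rw [Complex.normSq_div, Complex.normSq_natCast]
    ring
  rw [e3]
  ring

/-! ### the limit of the second difference -/

lemma finite_small (hL : IsLat L R Ω) {z : ℂ} (hz : z ∉ L.lattice) (B : ℝ) :
    ∀ᶠ β : R in cofinite, B ≤ ‖z + Ω * β‖ := by
  have h1 := (summ3 hL z).tendsto_cofinite_zero
  have hB : 0 < (|B| + 1) ^ 3 := by positivity
  have h2 := (h1.eventually (gt_mem_nhds (inv_pos.2 hB)))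
  filter_upwards [h2] with β hβ
  have hne : z + Ω * β ≠ 0 := by
    intro h
    apply hz
    have : z = -(Ω * β) := by linear_combination h
    rw [this]
    exact neg_mem (hL.mem_mul β)
  have h3 : 0 < ‖z + Ω * β‖ := norm_pos_iff.2 hne
  have h4 : (|B| + 1) ^ 3 < ‖z + Ω * β‖ ^ 3 := by
    rwa [inv_lt_inv₀ (by positivity) hB] at hβ
  have h5 := lt_of_pow_lt_pow_left₀ 3 h3.le h4
  have h6 := le_abs_self B
  linarith

lemma lat_ne (hL : IsLat L R Ω) {z : ℂ} (hz : z ∉ L.lattice) (β : R) : z + Ω * β ≠ 0 := by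
  intro h
  apply hz
  have : z = -(Ω * β) := by linear_combination h
  rw [this]
  exact neg_mem (hL.mem_mul β)

theorem lim_sec (hL : IsLat L R Ω) {z t : ℂ} (hz : z ∉ L.lattice) :
    Tendsto (fun δ : ℝ => EE R Ω δ (z + t) + EE R Ω δ (z - t) - 2 * EE R Ω δ z) (𝓝[>] 0)
      (𝓝 (∑' β : R, (1 / (z + t + Ω * β) + 1 / (z - t + Ω * β) - 2 * (1 / (z + Ω * β))))) := by
  classical
  set bnd : R → ℝ := fun β => if 2 * ‖t‖ ≤ ‖z + Ω * β‖ then
    256 * ‖t‖ ^ 2 * (‖z + Ω * β‖ ^ 3)⁻¹ else ‖z + t + Ω * β‖⁻¹ + ‖z - t + Ω * β‖⁻¹ +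
      2 * ‖z + Ω * β‖⁻¹ with hbnd
  have hb : Summable bnd := by
    refine ((summ3 hL z).mul_left (256 * ‖t‖ ^ 2)).congr_cofinite ?_
    filter_upwards [finite_small hL hz (2 * ‖t‖)] with β hβ
    simp only [hbnd]
    rw [if_pos hβ]
  have key : Tendsto (fun δ : ℝ => ∑' β : R, (fd δ (z + t + Ω * β) + fd δ (z - t + Ω * β) -
      2 * fd δ (z + Ω * β))) (𝓝[>] 0)
      (𝓝 (∑' β : R, (1 / (z + t + Ω * β) + 1 / (z - t + Ω * β) - 2 * (1 / (z + Ω * β))))) := by
    refine tendsto_tsum_of_dominated_convergence (bound := bnd) hb ?_ ?_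
    · intro β
      exact ((fd_tendsto _).add (fd_tendsto _)).sub ((fd_tendsto _).const_mul 2)
    · filter_upwards [self_mem_nhdsWithin] with δ hδ β
      have hδ0 : 0 ≤ δ := le_of_lt hδ
      simp only [hbnd]
      split_ifs with h
      · have h1 := sec_bound hδ0 (lat_ne hL hz β) h
        have e1 : z + t + Ω * β = z + Ω * β + t := by ring
        have e2 : z - t + Ω * β = z + Ω * β - t := by ring
        rw [e1, e2]
        exact h1
      · refine (norm_sub_le _ _).trans (add_le_add ((norm_add_le _ _).trans (add_le_add ?_ ?_)) ?_)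
        · exact fd_norm_le _ hδ0 _
        · exact fd_norm_le _ hδ0 _
        · rw [norm_mul, Complex.norm_ofNat]
          exact mul_le_mul_of_nonneg_left (fd_norm_le _ hδ0 _) (by norm_num)
  refine key.congr' ?_
  filter_upwards [self_mem_nhdsWithin] with δ hδ
  have s1 := summ_fd hL (z + t) hδ
  have s2 := summ_fd hL (z - t) hδ
  have s3 := (summ_fd hL z hδ).mul_left 2
  rw [(s1.add s2).tsum_sub s3, s1.tsum_add s2, tsum_mul_left]
  rfl

lemma sec_zeta (hL : IsLat L R Ω) (z t : ℂ) :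
    ∑' β : R, (1 / (z + t + Ω * β) + 1 / (z - t + Ω * β) - 2 * (1 / (z + Ω * β))) =
      zeta L (z + t) + zeta L (z - t) - 2 * zeta L z := by
  have s1 := summable_zetaTerm L (z + t)
  have s2 := summable_zetaTerm L (z - t)
  have s3 := (summable_zetaTerm L z).mul_left 2
  unfold zeta
  rw [← tsum_mul_left, ← s1.tsum_add s2, ← (s1.add s2).tsum_sub s3,
    ← ((latE hL).trans (Equiv.neg _)).tsum_eq]
  refine tsum_congr fun β => ?_
  have e : ((((latE hL).trans (Equiv.neg _)) β : L.lattice) : ℂ) = -(Ω * β) := by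
    rw [Equiv.trans_apply, Equiv.neg_apply, NegMemClass.coe_neg, latE_coe]
  rw [e]
  simp only [sub_neg_eq_add]
  ring

/-- the value of the second difference of the zeta function -/
noncomputable def Dd (L : PeriodPair) (z t : ℂ) : ℂ := ℘'[L] z / (℘[L] z - ℘[L] t)

lemma zeta_sec {z t : ℂ} (hz : z ∉ L.lattice) (ht : t ∉ L.lattice) (h1 : z + t ∉ L.lattice)
    (h2 : z - t ∉ L.lattice) : zeta L (z + t) + zeta L (z - t) - 2 * zeta L z = Dd L z t := by
  have hne : ℘[L] z - ℘[L] t ≠ 0 := by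
    rw [sub_ne_zero, Ne, wp_eq_iff L hz ht]
    tauto
  have := zeta_aux L hz ht h1 h2
  unfold Dd
  rw [eq_div_iff hne]
  linear_combination -this

theorem lim_Dd (hL : IsLat L R Ω) {z t : ℂ} (hz : z ∉ L.lattice) (ht : t ∉ L.lattice)
    (h1 : z + t ∉ L.lattice) (h2 : z - t ∉ L.lattice) :
    Tendsto (fun δ : ℝ => EE R Ω δ (z + t) + EE R Ω δ (z - t) - 2 * EE R Ω δ z) (𝓝[>] 0)
      (𝓝 (Dd L z t)) := by
  have := lim_sec hL (t := t) hz
  rwa [sec_zeta hL, zeta_sec hz ht h1 h2] at this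

end Pool.Agent.TH936.CM
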