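import Pool.Agent.TH936.CM.Alg
import Pool.Agent.TH936.HK.AsmK
import Pool.Agent.W644.HK.Theta0

/-!
# The central value as a limit of regularized sums over the ring
-/

set_option autoImplicit false

open Filter
open scoped Topology

namespace Pool.Agent.TH936.CM

open Pool.Agent.W192.HK
open Pool.Agent.W192.CM (nu)
open Pool.Agent.W192.CY (Vk)
open Pool.Agent.W644.HK (quo_term)

variable {R : Subring ℂ}

open Classical in
/-- the coefficient function -/
noncomputable def cb (θ : Ideal R → ℂ) (b : Ideal R) (α : R) : ℂ :=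
  if α ∈ b then (starRingEnd ℂ) (fp 1 θ α) else 0

lemma vk_one (x : ℝ) : Vk 1 x = Real.exp (-x) := by
  unfold Vk
  simp

set_option maxHeartbeats 1000000 in
theorem lim_L (h1 : H_BASIC) (h2 : H_FP) (h3 : H_CNT) (h4 : H_DEC) (h5 : H_AFE) {ω : ℂ}
    (hR : QR R ω) {q : Ideal R} {θ : Ideal R → ℂ} (hθ : HC 1 q θ) {s : Finset (Ideal R)}
    {hh : Ideal R} {μ : R} {T : Finset R} (hS : Sys q s hh μ T) :
    ∃ F : ℂ → ℂ, Differentiable ℂ F ∧
      (∀ z : ℂ, 3 / 2 < z.re → HasSum (fun I : Ideal R => θ I * (nm I : ℂ) ^ (-z)) (F z)) ∧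
      Tendsto (fun δ : ℝ => ∑ b ∈ s, θ b * SS (cb θ b) (δ / nm b)) (𝓝[>] 0)
        (𝓝 ((nu R : ℂ) * (starRingEnd ℂ) (F 1))) := by
  classical
  have hθ' : HC (2 * 1 - 1) q θ := hθ
  obtain ⟨F, hF1, hF2, hF3⟩ := h5 R ω hR 1 le_rfl q θ hθ' s hh μ T hS
  have hqt := hθ'.ne_top le_rfl
  obtain ⟨-, b2, b3, b4, b5, -, -, -, b9⟩ := h1 R ω hR
  obtain ⟨f1, -⟩ := h2 R ω hR 1 q θ hθ hqt
  obtain ⟨c1, c2, -⟩ := h3 R ω hR
  obtain ⟨d1, d2⟩ := h4 R ω hR s hS.cs
  refine ⟨F, hF1, fun z hz => hF2 z (by push_cast; linarith), ?_⟩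
  have hω := hR.im
  have hpi := Real.pi_pos
  have hν : (nu R : ℂ) ≠ 0 := by
    have : nu R ≠ 0 := by
      unfold nu
      haveI := b9
      exact Nat.card_pos.ne'
    exact_mod_cast this
  have hθ0 : θ ⊥ = 0 := (hθ.zero ⊥).2 (Or.inl rfl)
  have hpos : ∀ I : Ideal R, I ≠ ⊥ → 0 < nm I := fun I hI => by linarith [b3 I hI]
  have hQ := hpos q hθ.ne
  set C0 : ℝ := ω.im ^ 2 * nm q / Real.pi ^ 2 with hC0
  have hC0p : 0 < C0 := by positivity
  -- size of the terms
  have hle : ∀ I : Ideal R, ‖θ I / (nm I : ℂ) ^ 1‖ ≤ 1 := by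
    intro I
    by_cases h : θ I = 0
    · rw [h, zero_div, norm_zero]
      exact zero_le_one
    · have h' := h
      rw [hθ.zero, not_or, not_not] at h'
      have h6 := f1 I h'.1 h'.2
      rw [pow_one] at h6
      have h7 := b3 I h'.1
      rw [pow_one, norm_div, Complex.norm_real, Real.norm_eq_abs, abs_of_pos (hpos I h'.1),
        div_le_one (hpos I h'.1)]
      have h8 := norm_nonneg (θ I)
      nlinarith
  have hdec : ∀ (I : Ideal R) (X : ℝ), 0 < X → I ≠ ⊥ →
      Real.exp (-(nm I / X)) ≤ 2 * X ^ 2 * (nm I) ^ (-(2 : ℝ)) := by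
    intro I X hX hI
    have hn := hpos I hI
    rw [Real.rpow_neg hn.le, Real.rpow_two, Real.exp_neg]
    have h6 := Real.quadratic_le_exp_of_nonneg (x := nm I / X) (by positivity)
    have h7 : (nm I / X) ^ 2 / 2 ≤ Real.exp (nm I / X) := by
      have : 0 ≤ nm I / X := by positivity
      linarith
    calc (Real.exp (nm I / X))⁻¹ ≤ ((nm I / X) ^ 2 / 2)⁻¹ := inv_anti₀ (by positivity) h7
      _ = 2 * X ^ 2 * (nm I ^ 2)⁻¹ := by field_simp
  have hsum2 := c2 2 (by norm_num)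
  have hbd : ∀ (g : Ideal R → ℂ) (X : ℝ), 0 < X → (∀ I, ‖g I‖ ≤ 1) → g ⊥ = 0 → ∀ I,
      ‖g I * (Vk 1 (nm I / X) : ℂ)‖ ≤ 2 * X ^ 2 * (nm I) ^ (-(2 : ℝ)) := by
    intro g X hX hg hg0 I
    by_cases hI : I = ⊥
    · rw [hI, hg0, zero_mul, norm_zero]
      exact mul_nonneg (by positivity) (Real.rpow_nonneg (Nat.cast_nonneg _) _)
    · rw [norm_mul, vk_one, Complex.norm_real, Real.norm_eq_abs, Real.abs_exp]
      calc ‖g I‖ * Real.exp (-(nm I / X)) ≤ 1 * Real.exp (-(nm I / X)) :=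
            mul_le_mul_of_nonneg_right (hg I) (Real.exp_pos _).le
        _ = Real.exp (-(nm I / X)) := one_mul _
        _ ≤ _ := hdec I X hX hI
  -- the limit of the sums over ideals
  have hlim1 : Tendsto (fun δ : ℝ => ∑' I : Ideal R, θ I / (nm I : ℂ) ^ 1 *
      (Vk 1 (nm I / δ⁻¹) : ℂ)) (𝓝[>] 0) (𝓝 (F 1)) := by
    have hd : Tendsto (fun δ : ℝ => ∑' I : Ideal R, (starRingEnd ℂ) (θ I) / (nm I : ℂ) ^ 1 *
        (Vk 1 (nm I / (C0 * δ)) : ℂ)) (𝓝[>] 0) (𝓝 0) := by
      have hs : Tendsto (fun δ : ℝ => 2 * (C0 * δ) ^ 2 * ∑' I : Ideal R, (nm I) ^ (-(2 : ℝ)))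
          (𝓝[>] 0) (𝓝 0) := by
        have h6 : Continuous (fun δ : ℝ => 2 * (C0 * δ) ^ 2 *
            ∑' I : Ideal R, (nm I) ^ (-(2 : ℝ))) := by fun_prop
        have h7 := (h6.tendsto 0).mono_left (nhdsWithin_le_nhds (s := Set.Ioi 0))
        simpa using h7
      refine squeeze_zero_norm' ?_ hs
      filter_upwards [self_mem_nhdsWithin] with δ (hδ : 0 < δ)
      have hX : 0 < C0 * δ := by positivity
      rw [← tsum_mul_left]
      refine tsum_of_norm_bounded (hsum2.mul_left _).hasSum fun I => ?_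
      refine hbd (fun I => (starRingEnd ℂ) (θ I) / (nm I : ℂ) ^ 1) _ hX (fun I => ?_) ?_ I
      · have := hle I
        rw [norm_div] at this ⊢
        rwa [RCLike.norm_conj]
      · rw [hθ0, map_zero, zero_div]
    have hd2 := hd.const_mul (Wc ω 1 q hh μ T θ)
    rw [mul_zero] at hd2
    have hd3 := (tendsto_const_nhds (x := F 1) (f := 𝓝[>] (0 : ℝ))).sub hd2
    rw [sub_zero] at hd3
    refine hd3.congr' ?_
    filter_upwards [self_mem_nhdsWithin] with δ (hδ : 0 < δ)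
    have h6 := hF3 δ⁻¹ (C0 * δ) (by positivity) (by positivity) (by
      rw [hC0]
      field_simp)
    have h7 : F ((1 : ℕ) : ℂ) = F 1 := by rw [Nat.cast_one]
    rw [← h7, h6]
    ring
  have hlim2 : Tendsto (fun δ : ℝ => ∑' I : Ideal R, (starRingEnd ℂ) (θ I) / (nm I : ℂ) *
      (Real.exp (-(δ * nm I)) : ℂ)) (𝓝[>] 0) (𝓝 ((starRingEnd ℂ) (F 1))) := by
    have h6 := (Complex.continuous_conj.tendsto (F 1)).comp hlim1
    refine h6.congr fun δ => ?_
    simp only [Function.comp_apply]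
    rw [Complex.conj_tsum]
    refine tsum_congr fun I => ?_
    rw [map_mul, map_div₀, pow_one, Complex.conj_ofReal, Complex.conj_ofReal, vk_one]
    congr 4
    rw [div_inv_eq_mul, mul_comm]
  -- decomposition
  have hlim3 := hlim2.const_mul (nu R : ℂ)
  refine hlim3.congr' ?_
  filter_upwards [self_mem_nhdsWithin] with δ (hδ : 0 < δ)
  set G : Ideal R → ℂ := fun I => (starRingEnd ℂ) (θ I) / (nm I : ℂ) with hG
  have hG0 : G ⊥ = 0 := by
    simp only [hG]
    rw [hθ0, map_zero, zero_div]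
  have hGm : ∀ I J : Ideal R, G (I * J) = G I * G J := by
    intro I J
    simp only [hG]
    rw [hθ.mul, b4, map_mul]
    push_cast
    rw [mul_div_mul_comm]
  obtain ⟨-, e1⟩ := d2 (fun I => G I * (Real.exp (-(δ * nm I)) : ℂ)) (by rw [hG0, zero_mul])
  have hGs : Summable (fun I => G I * (Real.exp (-(δ * nm I)) : ℂ)) := by
    refine Summable.of_norm_bounded (hsum2.mul_left (2 * δ⁻¹ ^ 2)) fun I => ?_
    have h6 := hbd G δ⁻¹ (by positivity) (fun I => by
      have := hle I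
      rw [pow_one] at this
      simp only [hG]
      rw [norm_div] at this ⊢
      rwa [RCLike.norm_conj]) hG0 I
    rw [vk_one, div_inv_eq_mul, mul_comm (nm I) δ] at h6
    exact h6
  rw [e1 hGs, Finset.mul_sum]
  refine Finset.sum_congr rfl fun b hb => ?_
  have hbne := hS.cs.ne b hb
  have hbp := hpos b hbne
  have hθb : θ b ≠ 0 := by
    intro h
    rcases (hθ.zero b).1 h with h | h
    · exact hbne h
    · exact h (hS.cp b hb)
  have hGb : G b ≠ 0 := by
    simp only [hG]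
    refine div_ne_zero ((map_ne_zero _).2 hθb) ?_
    exact_mod_cast hbp.ne'
  have hGi : (G b)⁻¹ = θ b := by
    simp only [hG]
    have h6 := f1 b hbne (hS.cp b hb)
    rw [pow_one] at h6
    have h7 : θ b * (starRingEnd ℂ) (θ b) = (nm b : ℂ) := by
      rw [Complex.mul_conj, Complex.normSq_eq_norm_sq, h6]
    have h8 : (starRingEnd ℂ) (θ b) ≠ 0 := (map_ne_zero _).2 hθb
    rw [inv_div, ← h7]
    field_simp
  have hterm : ∀ α : R, (if α ∈ b then G (quo b α) * (Real.exp (-(δ * nm (quo b α))) : ℂ)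
      else 0) = θ b * (cb θ b α * fd (δ / nm b) (α : ℂ)) := by
    intro α
    unfold cb
    by_cases hα : α ∈ b
    · rw [if_pos hα, if_pos hα, quo_term hGm b4 b5 hGb hbp (d1 b hbne α hα) δ, hGi]
      congr 1
      unfold fd
      rw [← mul_assoc]
      congr 1
      simp only [hG]
      rw [b5]
      by_cases h0 : α = 0
      · subst h0
        have : sp (0 : R) = ⊥ := by rw [Ideal.span_singleton_eq_bot]
        rw [this, hθ0]
        simp
      · have h0' : (α : ℂ) ≠ 0 := fun h => h0 (Subtype.ext h)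
        unfold fp
        rw [pow_one, map_div₀, ← Complex.mul_conj]
        have h9 : (starRingEnd ℂ) (α : ℂ) ≠ 0 := (map_ne_zero _).2 h0'
        field_simp
    · rw [if_neg hα, if_neg hα, zero_mul, mul_zero]
  rw [tsum_congr hterm, tsum_mul_left]
  unfold SS
  field_simp

end Pool.Agent.TH936.CM
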