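import Pool.Agent.TH936.CM.Eqv
import Pool.Agent.TH936.CM.Jal

/-!
# The values of a Hecke character lie in a number field
-/

set_option autoImplicit false

namespace Pool.Agent.TH936.CM

open Pool.Agent.W192.HK Pool.Agent.W245.EB

variable {R : Subring ℂ} {ω : ℂ}

lemma quad_alg (a b : ℚ) (z : ℂ) (h : z * z = a + b * z) : IsAlgebraic ℚ z := by
  refine ⟨Polynomial.X ^ 2 - Polynomial.C b * Polynomial.X - Polynomial.C a, ?_, ?_⟩
  · intro h0
    have := congrArg (fun p => Polynomial.coeff p 2) h0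
    simp [Polynomial.coeff_X, Polynomial.coeff_C] at this
  · simp
    linear_combination h

lemma alg_R (hR : QR R ω) (r : R) : IsAlgebraic ℚ (r : ℂ) := by
  have h1 : ω ∈ R := QR.om_mem hR
  obtain ⟨x, y, h⟩ := (hR.mem _).1 (R.mul_mem h1 h1)
  have hω : IsAlgebraic ℚ ω := quad_alg (x : ℚ) (y : ℚ) ω (by push_cast; exact h)
  obtain ⟨a, b, hab⟩ := (hR.mem r).1 r.2
  rw [hab, ← mem_QB]
  have h2 := mem_QB.2 hω
  exact add_mem (intCast_mem _ _) (mul_mem (intCast_mem _ _) h2)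

lemma fp_one {n : ℕ} {q : Ideal R} {ψ : Ideal R → ℂ} (hψ : HC n q ψ) : fp n ψ 1 = 1 := by
  unfold fp
  have h1 : sp (1 : R) = ⊤ := Ideal.span_singleton_one
  have h2 : ψ ⊤ = 1 := hψ.top
  rw [h1, h2]
  simp

lemma fp_alg (h1 : H_BASIC) (h2 : H_FP) (hR : QR R ω) {n : ℕ} {q : Ideal R} {ψ : Ideal R → ℂ}
    (hψ : HC n q ψ) (hqt : q ≠ ⊤) (x : R) : IsAlgebraic ℚ (fp n ψ x) := by
  obtain ⟨b1, -⟩ := h1 R ω hR
  obtain ⟨-, f2, f3, f4, f5⟩ := h2 R ω hR n q ψ hψ hqt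
  by_cases hx : IsCoprime (sp x) q
  · have := b1 q hψ.ne
    obtain ⟨a, ha, b, hb, hab⟩ := Ideal.isCoprime_iff_exists.1 hx
    obtain ⟨v, rfl⟩ := Ideal.mem_span_singleton'.1 ha
    have hunit : IsUnit (Ideal.Quotient.mk q x) := by
      rw [isUnit_iff_exists_inv]
      refine ⟨Ideal.Quotient.mk q v, ?_⟩
      rw [← map_mul, ← map_one (Ideal.Quotient.mk q), Ideal.Quotient.mk_eq_mk_iff_sub_mem]
      have : x * v - 1 = -b := by linear_combination hab
      rw [this]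
      exact q.neg_mem hb
    obtain ⟨u, hu⟩ := hunit
    have hfin : Finite (R ⧸ q)ˣ := inferInstance
    obtain ⟨N, hN, huN⟩ := isOfFinOrder_iff_pow_eq_one.1 (isOfFinOrder_of_finite u)
    have hxN : x ^ N - 1 ∈ q := by
      rw [← Ideal.Quotient.mk_eq_mk_iff_sub_mem, map_pow, ← hu, ← Units.val_pow_eq_pow_val, huN,
        Units.val_one, map_one]
    have hpow : ∀ j : ℕ, fp n ψ (x ^ j) = fp n ψ x ^ j := by
      intro j
      induction j with
      | zero => rw [pow_zero, pow_zero, fp_one hψ]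
      | succ j ih => rw [pow_succ, f2, ih, pow_succ]
    have h6 : fp n ψ x ^ N = 1 := by
      rw [← hpow, f5 _ _ hxN, fp_one hψ]
    exact IsAlgebraic.of_pow hN (h6 ▸ isAlgebraic_one)
  · rw [(f3 x).2 hx]
    exact isAlgebraic_zero

open Classical in
/-- the values of `ψ` lie in a number field -/
theorem exists_psi (h1 : H_BASIC) (h2 : H_FP) (h3 : H_CLS) (hR : QR R ω) {n : ℕ} {q : Ideal R}
    {ψ : Ideal R → ℂ} (hψ : HC n q ψ) (hqt : q ≠ ⊤) :
    ∃ S : Finset ℂ, (∀ x ∈ S, IsAlgebraic ℚ x) ∧ ∀ σ : ℂ ≃+* ℂ, (∀ x ∈ S, σ x = x) →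
      (∀ r : R, σ (r : ℂ) = r) → ∀ I, σ (ψ I) = ψ I := by
  obtain ⟨b1, -, -, -, -, -, -, -, -⟩ := h1 R ω hR
  obtain ⟨-, f2, f3, f4, f5⟩ := h2 R ω hR n q ψ hψ hqt
  obtain ⟨h, hh1, hpr, hsys⟩ := h3 R ω hR
  obtain ⟨s, hh, μ, T, -, hS⟩ := hsys q hψ.ne
  have hψsp : ∀ α : R, α ≠ 0 → ψ (sp α) = fp n ψ α * (α : ℂ) ^ n := by
    intro α hα
    have h' : (α : ℂ) ≠ 0 := fun h => hα (Subtype.ext h)
    unfold fp
    rw [div_mul_cancel₀ _ (pow_ne_zero n h')]
  have hψ0 : ψ ⊥ = 0 := (hψ.zero ⊥).2 (Or.inl rfl)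
  have hpow : ∀ (I : Ideal R) (j : ℕ), ψ (I ^ j) = ψ I ^ j := by
    intro I j
    induction j with
    | zero =>
      rw [pow_zero, pow_zero]
      have : (1 : Ideal R) = ⊤ := Ideal.one_eq_top
      rw [this]
      exact hψ.top
    | succ j ih => rw [pow_succ, hψ.mul, ih, pow_succ]
  refine ⟨s.image ψ ∪ T.image (fun x => fp n ψ x), ?_, ?_⟩
  · intro x hx
    rw [Finset.mem_union, Finset.mem_image, Finset.mem_image] at hx
    rcases hx with ⟨b, hb, rfl⟩ | ⟨y, hy, rfl⟩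
    · obtain ⟨α, hα⟩ := hpr b
      have h6 : ψ b ^ h = ψ (sp α) := by rw [← hα, hpow]
      by_cases h0 : α = 0
      · have h7 : ψ (sp α) = 0 := by
          rw [h0]
          have : sp (0 : R) = ⊥ := by rw [Ideal.span_singleton_eq_bot]
          rw [this, hψ0]
        rw [h7] at h6
        have h8 : ψ b = 0 := pow_eq_zero_iff (by omega) |>.1 h6
        rw [h8]
        exact isAlgebraic_zero
      · rw [hψsp α h0] at h6
        refine IsAlgebraic.of_pow (n := h) (by omega) ?_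
        rw [h6, ← mem_QB]
        exact mul_mem (mem_QB.2 (fp_alg h1 h2 hR hψ hqt α)) (pow_mem (mem_QB.2 (alg_R hR α)) n)
    · exact fp_alg h1 h2 hR hψ hqt y
  · intro σ hσ hσR I
    by_cases hI : ψ I = 0
    · rw [hI, map_zero]
    have hI' := hI
    rw [hψ.zero, not_or, not_not] at hI'
    obtain ⟨b, ⟨hb, α, hα⟩, -⟩ := hS.cs.uni I hI'.1
    have hbne : ψ b ≠ 0 := by
      intro h
      rcases (hψ.zero b).1 h with h | h
      · exact hS.cs.ne b hb h
      · exact h (hS.cp b hb)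
    have hprod : ψ I * ψ b = ψ (sp α) := by rw [← hα, hψ.mul]
    have hα0 : α ≠ 0 := by
      intro h0
      have : sp α = ⊥ := by rw [h0, Ideal.span_singleton_eq_bot]
      rw [this, hψ0] at hprod
      exact (mul_ne_zero hI hbne) hprod
    have hσb : σ (ψ b) = ψ b := hσ _ (by
      rw [Finset.mem_union, Finset.mem_image]
      exact Or.inl ⟨b, hb, rfl⟩)
    obtain ⟨x, ⟨hx, hxq⟩, -⟩ := hS.rp.uni α
    have hσfp : σ (fp n ψ α) = fp n ψ α := by
      rw [f5 α x hxq]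
      exact hσ _ (by
        rw [Finset.mem_union, Finset.mem_image, Finset.mem_image]
        exact Or.inr ⟨x, hx, rfl⟩)
    have h9 : ψ I = fp n ψ α * (α : ℂ) ^ n / ψ b := by
      rw [← hψsp α hα0, ← hprod]
      field_simp
    rw [h9, map_div₀, map_mul, map_pow, hσfp, hσR, hσb]

end Pool.Agent.TH936.CM
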