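import Pool.Agent.TH936.CM.Act
import Pool.Agent.H667R3.W5

/-!
# Second differences of the regularized Eisenstein series of weight one
-/

set_option autoImplicit false

open Filter
open scoped Topology PeriodPair

namespace Pool.Agent.TH936.CM

open H667R3 Pool.Agent.W192.HK

/-- the regularized function `1 / u` -/
noncomputable def fd (δ : ℝ) (u : ℂ) : ℂ := u⁻¹ * (Real.exp (-(δ * Complex.normSq u)) : ℂ)

lemma fd_mul (δ : ℝ) (a w : ℂ) : fd δ (a * w) = a⁻¹ * fd (δ * Complex.normSq a) w := by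
  unfold fd
  rw [mul_inv, Complex.normSq_mul, mul_assoc, mul_assoc δ]

lemma fd_neg (δ : ℝ) (w : ℂ) : fd δ (-w) = - fd δ w := by
  unfold fd
  rw [Complex.normSq_neg, inv_neg, neg_mul]

lemma fd_norm_le (δ : ℝ) (hδ : 0 ≤ δ) (u : ℂ) : ‖fd δ u‖ ≤ ‖u‖⁻¹ := by
  unfold fd
  rw [norm_mul, norm_inv, Complex.norm_real, Real.norm_eq_abs, Real.abs_exp]
  refine mul_le_of_le_one_right (by positivity) ?_
  rw [Real.exp_le_one_iff]
  have := Complex.normSq_nonneg u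
  nlinarith [mul_nonneg hδ this]

lemma fd_bound (δ : ℝ) (hδ : 0 < δ) (u : ℂ) : ‖fd δ u‖ ≤ δ⁻¹ * (‖u‖ ^ 3)⁻¹ := by
  by_cases hu : u = 0
  · rw [hu]
    simp [fd]
  have hu0 : 0 < ‖u‖ := norm_pos_iff.2 hu
  unfold fd
  rw [norm_mul, norm_inv, Complex.norm_real, Real.norm_eq_abs, Real.abs_exp,
    Complex.normSq_eq_norm_sq]
  have h1 : Real.exp (-(δ * ‖u‖ ^ 2)) ≤ (δ * ‖u‖ ^ 2)⁻¹ := by
    rw [Real.exp_neg]
    have h2 := Real.add_one_le_exp (δ * ‖u‖ ^ 2)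
    have h3 : 0 < δ * ‖u‖ ^ 2 := by positivity
    exact inv_anti₀ h3 (by linarith)
  calc ‖u‖⁻¹ * Real.exp (-(δ * ‖u‖ ^ 2)) ≤ ‖u‖⁻¹ * (δ * ‖u‖ ^ 2)⁻¹ := by gcongr
    _ = δ⁻¹ * (‖u‖ ^ 3)⁻¹ := by field_simp

lemma fd_tendsto (u : ℂ) : Tendsto (fun δ : ℝ => fd δ u) (𝓝[>] 0) (𝓝 (1 / u)) := by
  have h1 : Continuous (fun δ : ℝ => fd δ u) := by
    unfold fd
    fun_prop
  have h2 := (h1.tendsto 0).mono_left (nhdsWithin_le_nhds (s := Set.Ioi 0))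
  have h3 : fd 0 u = 1 / u := by
    unfold fd
    simp
  rwa [h3] at h2

/-! ### the bound for the second difference -/

section bound

variable (δ : ℝ) (u t : ℂ)

/-- the coefficient -/
noncomputable def cB : ℝ := u.re * t.re + u.im * t.im

/-- the function along a line -/
noncomputable def f0 (s : ℂ) : ℂ := Complex.exp (-(δ * (Complex.normSq u + 2 * cB u t * s +
  Complex.normSq t * s ^ 2))) * (u + s * t)⁻¹

/-- the derivative along a line -/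
noncomputable def f1 (s : ℂ) : ℂ := Complex.exp (-(δ * (Complex.normSq u + 2 * cB u t * s +
  Complex.normSq t * s ^ 2))) * (-(δ * (2 * cB u t + 2 * Complex.normSq t * s)) * (u + s * t)⁻¹ -
    t * ((u + s * t)⁻¹) ^ 2)

/-- the second derivative along a line -/
noncomputable def f2 (s : ℂ) : ℂ := Complex.exp (-(δ * (Complex.normSq u + 2 * cB u t * s +
  Complex.normSq t * s ^ 2))) * ((δ * (2 * cB u t + 2 * Complex.normSq t * s)) ^ 2 *
    (u + s * t)⁻¹ + 2 * (δ * (2 * cB u t + 2 * Complex.normSq t * s)) * t *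
      ((u + s * t)⁻¹) ^ 2 - 2 * δ * Complex.normSq t * (u + s * t)⁻¹ +
    2 * t ^ 2 * ((u + s * t)⁻¹) ^ 3)

variable {δ u t}

lemma hd_exp (s : ℂ) : HasDerivAt (fun s : ℂ => Complex.exp (-(δ * (Complex.normSq u +
    2 * cB u t * s + Complex.normSq t * s ^ 2)))) (Complex.exp (-(δ * (Complex.normSq u +
    2 * cB u t * s + Complex.normSq t * s ^ 2))) *
      (-(δ * (2 * cB u t + 2 * Complex.normSq t * s)))) s := by
  refine HasDerivAt.cexp ?_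
  have h1 : HasDerivAt (fun s : ℂ => (Complex.normSq u : ℂ) + 2 * cB u t * s +
      Complex.normSq t * s ^ 2) (2 * cB u t + Complex.normSq t * (2 * s)) s := by
    have h2 : HasDerivAt (fun s : ℂ => 2 * (cB u t : ℂ) * s) (2 * (cB u t : ℂ)) s := by
      simpa using (hasDerivAt_id s).const_mul (2 * (cB u t : ℂ))
    have h3 : HasDerivAt (fun s : ℂ => (Complex.normSq t : ℂ) * s ^ 2)
        (Complex.normSq t * (2 * s)) s := by
      simpa using (hasDerivAt_pow 2 s).const_mul (Complex.normSq t : ℂ)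
    exact (h2.const_add _).add h3
  have h4 := (h1.const_mul (δ : ℂ)).neg
  refine h4.congr_deriv ?_
  ring

lemma hd_inv {s : ℂ} (hv : u + s * t ≠ 0) : HasDerivAt (fun s : ℂ => (u + s * t)⁻¹)
    (-(t * ((u + s * t)⁻¹) ^ 2)) s := by
  have h1 : HasDerivAt (fun s : ℂ => u + s * t) t s := by
    simpa using ((hasDerivAt_id s).mul_const t).const_add u
  refine (h1.inv hv).congr_deriv ?_
  field_simp

lemma hd_f0 {s : ℂ} (hv : u + s * t ≠ 0) : HasDerivAt (f0 δ u t) (f1 δ u t s) s := by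
  refine ((hd_exp s).mul (hd_inv hv)).congr_deriv ?_
  unfold f1
  ring

lemma hd_f1 {s : ℂ} (hv : u + s * t ≠ 0) : HasDerivAt (f1 δ u t) (f2 δ u t s) s := by
  have h1 : HasDerivAt (fun s : ℂ => -((δ : ℂ) * (2 * cB u t + 2 * Complex.normSq t * s)))
      (-(δ * (2 * Complex.normSq t))) s := by
    have h2 : HasDerivAt (fun s : ℂ => 2 * (Complex.normSq t : ℂ) * s)
        (2 * (Complex.normSq t : ℂ)) s := by
      simpa using (hasDerivAt_id s).const_mul (2 * (Complex.normSq t : ℂ))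
    exact ((h2.const_add _).const_mul (δ : ℂ)).neg
  have h3 := (h1.mul (hd_inv hv)).sub (((hd_inv hv).pow 2).const_mul t)
  refine ((hd_exp s).mul h3).congr_deriv ?_
  unfold f2
  simp only [Pi.mul_apply, Pi.sub_apply, Pi.pow_apply]
  ring

lemma normSq_line (s : ℝ) : Complex.normSq (u + s * t) = Complex.normSq u + 2 * cB u t * s +
    Complex.normSq t * s ^ 2 := by
  unfold cB
  simp only [Complex.normSq_apply, Complex.add_re, Complex.add_im, Complex.mul_re, Complex.mul_im,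
    Complex.ofReal_re, Complex.ofReal_im]
  ring

lemma f0_eq (s : ℝ) : f0 δ u t s = fd δ (u + s * t) := by
  unfold f0 fd
  rw [normSq_line, mul_comm]
  push_cast
  rfl

lemma cB_le (s : ℝ) : |2 * cB u t + 2 * Complex.normSq t * s| ≤ 2 * (‖t‖ * ‖u + s * t‖) := by
  have h1 : 2 * cB u t + 2 * Complex.normSq t * s =
      2 * ((u + s * t) * (starRingEnd ℂ) t).re := by
    unfold cB
    simp only [Complex.normSq_apply, Complex.add_re, Complex.add_im, Complex.mul_re,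
      Complex.mul_im, Complex.ofReal_re, Complex.ofReal_im, Complex.conj_re, Complex.conj_im]
    ring
  rw [h1, abs_mul, abs_two]
  refine mul_le_mul_of_nonneg_left ?_ (by norm_num)
  refine (Complex.abs_re_le_norm _).trans ?_
  rw [norm_mul, RCLike.norm_conj, mul_comm]

lemma f2_bound (hδ : 0 ≤ δ) (hu : u ≠ 0) (ht : 2 * ‖t‖ ≤ ‖u‖) (s : ℝ) (hs : |s| ≤ 1) :
    ‖f2 δ u t s‖ ≤ 128 * ‖t‖ ^ 2 * (‖u‖ ^ 3)⁻¹ := by
  have hu0 : 0 < ‖u‖ := norm_pos_iff.2 hu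
  set v : ℂ := u + s * t with hv
  have hv1 : ‖u‖ / 2 ≤ ‖v‖ := by
    have h1 : ‖u‖ ≤ ‖v‖ + ‖(s : ℂ) * t‖ := by
      have : u = v - s * t := by rw [hv]; ring
      calc ‖u‖ = ‖v - s * t‖ := by rw [← this]
        _ ≤ _ := norm_sub_le _ _
    have h2 : ‖(s : ℂ) * t‖ ≤ ‖t‖ := by
      rw [norm_mul, Complex.norm_real, Real.norm_eq_abs]
      exact mul_le_of_le_one_left (norm_nonneg _) hs
    linarith
  have hv0 : 0 < ‖v‖ := by linarith
  set X : ℝ := δ * ‖v‖ ^ 2 with hX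
  have hX0 : 0 ≤ X := by positivity
  have hexp : ‖Complex.exp (-(δ * (Complex.normSq u + 2 * cB u t * s +
      Complex.normSq t * s ^ 2)))‖ = Real.exp (-X) := by
    have h1 : -((δ : ℂ) * (Complex.normSq u + 2 * cB u t * s + Complex.normSq t * s ^ 2)) =
        ((-X : ℝ) : ℂ) := by
      rw [hX, hv, ← Complex.normSq_eq_norm_sq, normSq_line]
      push_cast
      ring
    rw [h1, Complex.norm_exp, Complex.ofReal_re]
  have hc : ‖(δ : ℂ) * (2 * cB u t + 2 * Complex.normSq t * s)‖ ≤ δ * (2 * (‖t‖ * ‖v‖)) := by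
    have h1 : (δ : ℂ) * (2 * cB u t + 2 * Complex.normSq t * s) =
        ((δ * (2 * cB u t + 2 * Complex.normSq t * s) : ℝ) : ℂ) := by push_cast; ring
    rw [h1, Complex.norm_real, Real.norm_eq_abs, abs_mul, abs_of_nonneg hδ]
    exact mul_le_mul_of_nonneg_left (cB_le s) hδ
  have hmain : ‖f2 δ u t s‖ ≤ Real.exp (-X) * ((δ * (2 * (‖t‖ * ‖v‖))) ^ 2 * ‖v‖⁻¹ +
      2 * (δ * (2 * (‖t‖ * ‖v‖))) * ‖t‖ * ‖v‖⁻¹ ^ 2 + 2 * δ * ‖t‖ ^ 2 * ‖v‖⁻¹ +
      2 * ‖t‖ ^ 2 * ‖v‖⁻¹ ^ 3) := by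
    unfold f2
    rw [norm_mul, hexp]
    refine mul_le_mul_of_nonneg_left ?_ (Real.exp_pos _).le
    refine (norm_add_le _ _).trans (add_le_add ((norm_sub_le _ _).trans (add_le_add
      ((norm_add_le _ _).trans (add_le_add ?_ ?_)) ?_)) ?_)
    · rw [norm_mul, norm_pow, norm_inv]
      gcongr
    · rw [norm_mul, norm_mul, norm_mul, norm_pow, norm_inv, Complex.norm_ofNat]
      gcongr
    · rw [norm_mul, norm_mul, norm_mul, norm_inv, Complex.norm_ofNat, Complex.norm_real,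
        Complex.norm_real, Real.norm_eq_abs, Real.norm_eq_abs, abs_of_nonneg hδ,
        abs_of_nonneg (Complex.normSq_nonneg t), Complex.normSq_eq_norm_sq]
    · rw [norm_mul, norm_mul, norm_pow, norm_pow, norm_inv, Complex.norm_ofNat]
  have hrew : (δ * (2 * (‖t‖ * ‖v‖))) ^ 2 * ‖v‖⁻¹ +
      2 * (δ * (2 * (‖t‖ * ‖v‖))) * ‖t‖ * ‖v‖⁻¹ ^ 2 + 2 * δ * ‖t‖ ^ 2 * ‖v‖⁻¹ +
      2 * ‖t‖ ^ 2 * ‖v‖⁻¹ ^ 3 = ‖t‖ ^ 2 * (‖v‖ ^ 3)⁻¹ * (4 * X ^ 2 + 6 * X + 2) := by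
    rw [hX]
    field_simp
    ring
  have hE : Real.exp (-X) * (4 * X ^ 2 + 6 * X + 2) ≤ 16 := by
    rw [Real.exp_neg, inv_mul_le_iff₀ (Real.exp_pos _)]
    have h1 := Real.quadratic_le_exp_of_nonneg hX0
    nlinarith
  rw [hrew] at hmain
  refine hmain.trans ?_
  have h3 : (‖v‖ ^ 3)⁻¹ ≤ 8 * (‖u‖ ^ 3)⁻¹ := by
    have h4 : (‖u‖ / 2) ^ 3 ≤ ‖v‖ ^ 3 := by gcongr
    calc (‖v‖ ^ 3)⁻¹ ≤ ((‖u‖ / 2) ^ 3)⁻¹ := inv_anti₀ (by positivity) h4
      _ = 8 * (‖u‖ ^ 3)⁻¹ := by field_simp; norm_num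
  calc Real.exp (-X) * (‖t‖ ^ 2 * (‖v‖ ^ 3)⁻¹ * (4 * X ^ 2 + 6 * X + 2))
      = ‖t‖ ^ 2 * (‖v‖ ^ 3)⁻¹ * (Real.exp (-X) * (4 * X ^ 2 + 6 * X + 2)) := by ring
    _ ≤ ‖t‖ ^ 2 * (8 * (‖u‖ ^ 3)⁻¹) * 16 := by gcongr
    _ = 128 * ‖t‖ ^ 2 * (‖u‖ ^ 3)⁻¹ := by ring

lemma line_ne (hu : u ≠ 0) (ht : 2 * ‖t‖ ≤ ‖u‖) (s : ℝ) (hs : |s| ≤ 1) :
    u + (s : ℂ) * t ≠ 0 := by
  intro h
  have hu0 : 0 < ‖u‖ := norm_pos_iff.2 hu
  have h1 : u = -(s * t) := by linear_combination h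
  have h2 : ‖u‖ ≤ ‖t‖ := by
    rw [h1, norm_neg, norm_mul, Complex.norm_real, Real.norm_eq_abs]
    exact mul_le_of_le_one_left (norm_nonneg _) hs
  linarith

/-- the second difference -/
theorem sec_bound (hδ : 0 ≤ δ) (hu : u ≠ 0) (ht : 2 * ‖t‖ ≤ ‖u‖) :
    ‖fd δ (u + t) + fd δ (u - t) - 2 * fd δ u‖ ≤ 256 * ‖t‖ ^ 2 * (‖u‖ ^ 3)⁻¹ := by
  set B : ℝ := 128 * ‖t‖ ^ 2 * (‖u‖ ^ 3)⁻¹ with hB
  have hB0 : 0 ≤ B := by positivity
  have hS : Convex ℝ (Set.Icc (-1 : ℝ) 1) := convex_Icc _ _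
  have habs : ∀ s ∈ Set.Icc (-1 : ℝ) 1, |s| ≤ 1 := fun s hs => abs_le.2 ⟨hs.1, hs.2⟩
  have hneg : ∀ s ∈ Set.Icc (-1 : ℝ) 1, -s ∈ Set.Icc (-1 : ℝ) 1 := fun s hs =>
    ⟨by linarith [hs.2], by linarith [hs.1]⟩
  have h1 : ∀ s ∈ Set.Icc (-1 : ℝ) 1, ‖f1 δ u t s - f1 δ u t ((-s : ℝ) : ℂ)‖ ≤ 2 * B := by
    intro s hs
    have h2 := hS.norm_image_sub_le_of_norm_hasDerivWithin_le
      (f := fun x : ℝ => f1 δ u t x) (f' := fun x : ℝ => f2 δ u t x) (C := B)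
      (fun x hx => ((hd_f1 (line_ne hu ht x (habs x hx))).comp_ofReal).hasDerivWithinAt)
      (fun x hx => f2_bound hδ hu ht x (habs x hx)) (hneg s hs) hs
    refine h2.trans ?_
    have h3 : ‖s - -s‖ ≤ 2 := by
      rw [sub_neg_eq_add, ← two_mul, norm_mul, Real.norm_eq_abs, Real.norm_eq_abs, abs_two]
      linarith [habs s hs]
    calc B * ‖s - -s‖ ≤ B * 2 := mul_le_mul_of_nonneg_left h3 hB0
      _ = 2 * B := mul_comm _ _
  have h4 := hS.norm_image_sub_le_of_norm_hasDerivWithin_le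
      (f := fun x : ℝ => f0 δ u t x + f0 δ u t ((-x : ℝ) : ℂ) - 2 * f0 δ u t 0)
      (f' := fun x : ℝ => f1 δ u t x - f1 δ u t ((-x : ℝ) : ℂ)) (C := 2 * B)
      (fun x hx => ?_) h1 (x := 0) (y := 1) (by constructor <;> norm_num)
      (by constructor <;> norm_num)
  · have e1 : f0 δ u t ((1 : ℝ) : ℂ) = fd δ (u + t) := by
      rw [f0_eq]
      congr 1
      push_cast
      ring
    have e2 : f0 δ u t ((-1 : ℝ) : ℂ) = fd δ (u - t) := by
      rw [f0_eq]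
      congr 1
      push_cast
      ring
    have e3 : f0 δ u t ((0 : ℝ) : ℂ) = fd δ u := by
      rw [f0_eq]
      congr 1
      push_cast
      ring
    have e4 : f0 δ u t 0 = fd δ u := by
      rw [← e3]
      push_cast
      rfl
    simp only [neg_zero, e1, e2, e3, e4] at h4
    have e5 : fd δ u + fd δ u - 2 * fd δ u = 0 := by ring
    rw [e5, sub_zero, sub_zero, norm_one, mul_one] at h4
    calc _ ≤ 2 * B := h4
      _ = _ := by rw [hB]; ring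
  · have h5 := (hd_f0 (δ := δ) (line_ne hu ht x (habs x hx))).comp_ofReal
    have h6 := (hd_f0 (δ := δ) (line_ne hu ht (-x) (habs _ (hneg x hx)))).comp_ofReal
    have h7 : HasDerivAt (fun y : ℝ => f0 δ u t ((-y : ℝ) : ℂ)) (-f1 δ u t ((-x : ℝ) : ℂ)) x := by
      have := HasDerivAt.scomp x h6 (hasDerivAt_neg x)
      exact this.congr_deriv (by simp)
    have h8 := ((h5.add h7).sub_const (2 * f0 δ u t 0)).hasDerivWithinAt
      (s := Set.Icc (-1 : ℝ) 1)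
    refine h8.congr_deriv ?_
    ring

end bound

end Pool.Agent.TH936.CM
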