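import Pool.Agent.W245.EB.CMz2
import Pool.Agent.W520.Lift

/-!
# Automorphisms of the complex numbers and points of an elliptic curve with complex multiplication
-/

set_option autoImplicit false

open Filter
open scoped Topology PeriodPair

namespace Pool.Agent.TH936.CM

open H667R3 Pool.Agent.W245.EB

/-- `σ` takes the point with parameter `z` to the point with parameter `z'` -/
def Rl (L : PeriodPair) (σ : ℂ ≃+* ℂ) (z z' : ℂ) : Prop := (z ∈ L.lattice ∧ z' ∈ L.lattice) ∨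
  (z ∉ L.lattice ∧ z' ∉ L.lattice ∧ σ (℘[L] z) = ℘[L] z' ∧ σ (℘'[L] z) = ℘'[L] z')

variable {L : PeriodPair} {σ : ℂ ≃+* ℂ}

lemma Rl.mem_iff {z z' : ℂ} (h : Rl L σ z z') : z ∈ L.lattice ↔ z' ∈ L.lattice := by
  rcases h with h | h
  · exact ⟨fun _ => h.2, fun _ => h.1⟩
  · exact ⟨fun h' => absurd h' h.1, fun h' => absurd h' h.2.1⟩

lemma Rl.vals {z z' : ℂ} (h : Rl L σ z z') (hz : z ∉ L.lattice) :
    σ (℘[L] z) = ℘[L] z' ∧ σ (℘'[L] z) = ℘'[L] z' := by
  rcases h with h | h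
  · exact absurd h.1 hz
  · exact h.2.2

lemma Rl.exists (h2 : σ L.g₂ = L.g₂) (h3 : σ L.g₃ = L.g₃) (z : ℂ) : ∃ z', Rl L σ z z' := by
  by_cases hz : z ∈ L.lattice
  · exact ⟨z, Or.inl ⟨hz, hz⟩⟩
  · have h1 := congrArg σ (L.derivWeierstrassP_sq z hz)
    simp only [map_pow, map_sub, map_mul, h2, h3, map_ofNat] at h1
    obtain ⟨u, hu, hx, hy⟩ := Pool.Agent.W520.exists_point L _ _ h1
    exact ⟨u, Or.inr ⟨hz, hu, hx.symm, hy.symm⟩⟩

lemma two_mem_iff {z : ℂ} (hz : z ∉ L.lattice) : 2 * z ∈ L.lattice ↔ ℘'[L] z = 0 := by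
  constructor
  · intro h
    have := wp'_half_eq_zero L h
    rwa [mul_div_cancel_left₀ _ (two_ne_zero)] at this
  · intro h
    by_contra hc
    exact wp'_ne_zero L hc h

lemma two_mul_mem {z : ℂ} (hz : z ∈ L.lattice) : 2 * z ∈ L.lattice := by
  rw [two_mul]; exact add_mem hz hz

lemma pt_inj {z w : ℂ} (hz : z ∉ L.lattice) (hw : w ∉ L.lattice) (h1 : ℘[L] z = ℘[L] w)
    (h2 : ℘'[L] z = ℘'[L] w) : z - w ∈ L.lattice := by
  rcases (wp_eq_iff L hz hw).1 h1 with h | h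
  · have e : w = -z + (z + w) := by ring
    have h3 : ℘'[L] w = -℘'[L] z := by
      rw [e, wp'_add_lattice L h, L.derivWeierstrassP_neg]
    have h4 : ℘'[L] z = 0 := by
      rw [← h2] at h3
      linear_combination (1 / 2 : ℂ) * h3
    have h5 := (two_mem_iff hz).2 h4
    have e2 : z - w = 2 * z - (z + w) := by ring
    rw [e2]
    exact sub_mem h5 h
  · exact h

lemma Rl.uniq {z z' w' : ℂ} (h : Rl L σ z z') (h' : Rl L σ z w') : z' - w' ∈ L.lattice := by
  by_cases hz : z ∈ L.lattice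
  · exact sub_mem (h.mem_iff.1 hz) (h'.mem_iff.1 hz)
  · have h1 := h.vals hz
    have h2 := h'.vals hz
    refine pt_inj (fun hc => hz (h.mem_iff.2 hc)) (fun hc => hz (h'.mem_iff.2 hc)) ?_ ?_
    · rw [← h1.1, ← h2.1]
    · rw [← h1.2, ← h2.2]

lemma Rl.uniq' {z w z' : ℂ} (h : Rl L σ z z') (h' : Rl L σ w z') : z - w ∈ L.lattice := by
  by_cases hz : z' ∈ L.lattice
  · exact sub_mem (h.mem_iff.2 hz) (h'.mem_iff.2 hz)
  · have hz1 : z ∉ L.lattice := fun hc => hz (h.mem_iff.1 hc)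
    have hw1 : w ∉ L.lattice := fun hc => hz (h'.mem_iff.1 hc)
    have h1 := h.vals hz1
    have h2 := h'.vals hw1
    refine pt_inj hz1 hw1 ?_ ?_
    · exact σ.injective (by rw [h1.1, h2.1])
    · exact σ.injective (by rw [h1.2, h2.2])

lemma Rl.add_right {z z' l : ℂ} (h : Rl L σ z z') (hl : l ∈ L.lattice) : Rl L σ z (z' + l) := by
  rcases h with h | h
  · exact Or.inl ⟨h.1, add_mem h.2 hl⟩
  · refine Or.inr ⟨h.1, fun hc => h.2.1 ((add_mem_lattice_iff L hl).1 hc), ?_, ?_⟩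
    · rw [wp_add_lattice L hl]; exact h.2.2.1
    · rw [wp'_add_lattice L hl]; exact h.2.2.2

lemma Rl.add_left {z z' l : ℂ} (h : Rl L σ z z') (hl : l ∈ L.lattice) : Rl L σ (z + l) z' := by
  rcases h with h | h
  · exact Or.inl ⟨add_mem h.1 hl, h.2⟩
  · refine Or.inr ⟨fun hc => h.1 ((add_mem_lattice_iff L hl).1 hc), h.2.1, ?_, ?_⟩
    · rw [wp_add_lattice L hl]; exact h.2.2.1
    · rw [wp'_add_lattice L hl]; exact h.2.2.2

lemma Rl.neg {z z' : ℂ} (h : Rl L σ z z') : Rl L σ (-z) (-z') := by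
  rcases h with h | h
  · exact Or.inl ⟨neg_mem h.1, neg_mem h.2⟩
  · refine Or.inr ⟨fun hc => h.1 (by simpa using neg_mem hc), fun hc => h.2.1 (by simpa using neg_mem hc),
      ?_, ?_⟩
    · rw [L.weierstrassP_neg, L.weierstrassP_neg]; exact h.2.2.1
    · rw [L.derivWeierstrassP_neg, L.derivWeierstrassP_neg, map_neg, h.2.2.2]

lemma Rl.two_iff {z z' : ℂ} (h : Rl L σ z z') : 2 * z ∈ L.lattice ↔ 2 * z' ∈ L.lattice := by
  by_cases hz : z ∈ L.lattice
  · exact ⟨fun _ => two_mul_mem (h.mem_iff.1 hz), fun _ => two_mul_mem hz⟩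
  · have hz' : z' ∉ L.lattice := fun hc => hz (h.mem_iff.2 hc)
    rw [two_mem_iff hz, two_mem_iff hz', ← (h.vals hz).2]
    constructor
    · intro h1
      rw [h1, map_zero]
    · intro h1
      exact (map_eq_zero σ).1 h1

/-- the sum lies in the lattice -/
lemma Rl.sum_mem {z z' w w' : ℂ} (h : Rl L σ z z') (h' : Rl L σ w w')
    (hs : z + w ∈ L.lattice) : z' + w' ∈ L.lattice := by
  have h1 : Rl L σ w (-z') := by
    have := h.neg.add_left hs
    rwa [show -z + (z + w) = w by ring] at this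
  have := h'.uniq h1
  rwa [show w' - -z' = z' + w' by ring] at this

lemma Rl.sum_mem_iff {z z' w w' : ℂ} (h : Rl L σ z z') (h' : Rl L σ w w') :
    z + w ∈ L.lattice ↔ z' + w' ∈ L.lattice := by
  refine ⟨h.sum_mem h', fun hs => ?_⟩
  have h1 : Rl L σ w (-z') := by
    have := h'.add_right (neg_mem hs)
    rwa [show w' + -(z' + w') = -z' by ring] at this
  have := h1.uniq' h.neg
  rwa [show w - -z = z + w by ring] at this

lemma Rl.sub_mem_iff {z z' w w' : ℂ} (h : Rl L σ z z') (h' : Rl L σ w w') :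
    z - w ∈ L.lattice ↔ z' - w' ∈ L.lattice := by
  have := h.sum_mem_iff h'.neg
  rwa [← sub_eq_add_neg, ← sub_eq_add_neg] at this

lemma Rl.add_gen (h2 : σ L.g₂ = L.g₂) {z z' w w' : ℂ} (h : Rl L σ z z') (h' : Rl L σ w w')
    (hz : 2 * z ∉ L.lattice) (hw : w ∉ L.lattice) (h3 : z + w ∉ L.lattice)
    (h4 : z - w ∉ L.lattice) : Rl L σ (z + w) (z' + w') := by
  have hz0 : z ∉ L.lattice := fun hc => hz (two_mul_mem hc)
  have hz' : 2 * z' ∉ L.lattice := fun hc => hz (h.two_iff.2 hc)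
  have hw' : w' ∉ L.lattice := fun hc => hw (h'.mem_iff.2 hc)
  have h3' : z' + w' ∉ L.lattice := fun hc => h3 ((h.sum_mem_iff h').2 hc)
  have h4' : z' - w' ∉ L.lattice := fun hc => h4 ((h.sub_mem_iff h').2 hc)
  obtain ⟨e1, e2⟩ := h.vals hz0
  obtain ⟨e3, e4⟩ := h'.vals hw
  refine Or.inr ⟨h3, h3', ?_, ?_⟩
  · rw [wp_add L hz hw h3 h4, wp_add L hz' hw' h3' h4']
    simp only [map_sub, map_mul, map_div₀, map_pow, map_ofNat, e1, e2, e3, e4, h2]
  · rw [wp'_add L hz hw h3 h4, wp'_add L hz' hw' h3' h4']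
    simp only [map_sub, map_add, map_mul, map_div₀, map_pow, map_ofNat, e1, e2, e3, e4, h2]

/-- a generic point -/
lemma exists_gen (L : PeriodPair) (S : Finset ℂ) : ∃ s : ℂ, ∀ x ∈ S, 2 * s + x ∉ L.lattice ∧
    s + x ∉ L.lattice := by
  have hc : (L.lattice : Set ℂ).Countable := Wg.wp_inj_count L
  have h1 : (⋃ x ∈ (S : Set ℂ), ((fun l : ℂ => (l - x) / 2) '' (L.lattice : Set ℂ) ∪
      (fun l : ℂ => l - x) '' (L.lattice : Set ℂ))).Countable := by
    refine (S.countable_toSet).biUnion fun x _ => ?_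
    exact (hc.image _).union (hc.image _)
  obtain ⟨s, hs⟩ : ∃ s : ℂ, s ∉ (⋃ x ∈ (S : Set ℂ),
      ((fun l : ℂ => (l - x) / 2) '' (L.lattice : Set ℂ) ∪
      (fun l : ℂ => l - x) '' (L.lattice : Set ℂ))) := by
    by_contra hcon
    push Not at hcon
    have h2 : (Set.univ : Set ℂ).Countable := h1.mono fun s _ => hcon s
    exact not_countable_complex h2
  refine ⟨s, fun x hx => ⟨fun h => hs ?_, fun h => hs ?_⟩⟩
  · simp only [Set.mem_iUnion]
    exact ⟨x, hx, Or.inl ⟨2 * s + x, h, by ring⟩⟩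
  · simp only [Set.mem_iUnion]
    exact ⟨x, hx, Or.inr ⟨s + x, h, by ring⟩⟩

lemma Rl.add (h2 : σ L.g₂ = L.g₂) (h3 : σ L.g₃ = L.g₃) {z z' w w' : ℂ} (h : Rl L σ z z')
    (h' : Rl L σ w w') : Rl L σ (z + w) (z' + w') := by
  by_cases hz : z ∈ L.lattice
  · have hz' := h.mem_iff.1 hz
    have h5 := (h'.add_left hz).add_right hz'
    rwa [add_comm w z, add_comm w' z'] at h5
  by_cases hw : w ∈ L.lattice
  · exact (h.add_left hw).add_right (h'.mem_iff.1 hw)
  by_cases hs : z + w ∈ L.lattice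
  · exact Or.inl ⟨hs, h.sum_mem h' hs⟩
  classical
  obtain ⟨s, hS⟩ := exists_gen L {0, z, -z, w, -w, 2 * z, -(2 * z), z - w}
  obtain ⟨s', hs'⟩ := Rl.exists (L := L) (σ := σ) h2 h3 s
  have a1 := (hS 0 (by simp)).1
  have a2 := (hS z (by simp)).2
  have a3 := (hS (-z) (by simp)).2
  have a4 := (hS (-w) (by simp)).2
  have a5 := (hS (2 * z) (by simp)).1
  have a6 := (hS (z - w) (by simp)).1
  have a0 := (hS 0 (by simp)).2
  rw [add_zero] at a1 a0
  -- `s + z`
  have b1 : Rl L σ (s + z) (s' + z') := hs'.add_gen h2 h a1 hz a2 (by rwa [sub_eq_add_neg])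
  -- `s - w`
  have b2 : Rl L σ (s + -w) (s' + -w') := by
    refine hs'.add_gen h2 h'.neg a1 (fun hc => hw (by simpa using neg_mem hc)) a4 ?_
    rw [sub_neg_eq_add]
    exact (hS w (by simp)).2
  -- `(s + z) - (s - w)`
  have b3 : Rl L σ (s + z + -(s + -w)) (s' + z' + -(s' + -w')) := by
    refine b1.add_gen h2 b2.neg ?_ (fun hc => a4 (by simpa using neg_mem hc)) ?_ ?_
    · rwa [show 2 * (s + z) = 2 * s + 2 * z by ring]
    · rwa [show s + z + -(s + -w) = z + w by ring]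
    · rwa [show s + z - -(s + -w) = 2 * s + (z - w) by ring]
  rwa [show s + z + -(s + -w) = z + w by ring, show s' + z' + -(s' + -w') = z' + w' by ring] at b3

lemma Rl.zero : Rl L σ 0 0 := Or.inl ⟨zero_mem _, zero_mem _⟩

lemma Rl.nat_mul (h2 : σ L.g₂ = L.g₂) (h3 : σ L.g₃ = L.g₃) {z z' : ℂ} (h : Rl L σ z z') (n : ℕ) :
    Rl L σ (n * z) (n * z') := by
  induction n with
  | zero => simpa using Rl.zero
  | succ n ih =>
    have := ih.add h2 h3 h
    push_cast
    rwa [add_mul, one_mul, add_mul, one_mul]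

lemma Rl.int_mul (h2 : σ L.g₂ = L.g₂) (h3 : σ L.g₃ = L.g₃) {z z' : ℂ} (h : Rl L σ z z') (n : ℤ) :
    Rl L σ (n * z) (n * z') := by
  rcases Int.eq_nat_or_neg n with ⟨m, rfl | rfl⟩
  · exact_mod_cast h.nat_mul h2 h3 m
  · have := (h.nat_mul h2 h3 m).neg
    push_cast
    rwa [neg_mul, neg_mul]

/-! ### multipliers -/

variable {α : ℂ}

/-- the multiplication formula for `℘'` -/
lemma wp'_mul (hα : α ≠ 0) (hm : ∀ w ∈ L.lattice, α * w ∈ L.lattice) {c : ℂ}
    (hc : ∀ z, α * z ∉ L.lattice → α ^ 2 * ℘[L] (α * z) = ∑ x ∈ ker hα hm, ℘[L] (z - x.out) + c)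
    (z : ℂ) (hz : α * z ∉ L.lattice) :
    α ^ 3 * ℘'[L] (α * z) = ∑ x ∈ ker hα hm, ℘'[L] (z - x.out) := by
  have h1 : HasDerivAt (fun u : ℂ => α ^ 2 * ℘[L] (α * u)) (α ^ 2 * (℘'[L] (α * z) * α)) z := by
    have h0 : HasDerivAt (fun x : ℂ => α * x) α z := by
      simpa using (hasDerivAt_id z).const_mul α
    exact ((hasDerivAt_weierstrassP L hz).comp z h0).const_mul (α ^ 2)
  have h2 : HasDerivAt (fun u : ℂ => ∑ x ∈ ker hα hm, ℘[L] (u - x.out) + c)
      (∑ x ∈ ker hα hm, ℘'[L] (z - x.out)) z := by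
    refine HasDerivAt.add_const c ?_
    refine HasDerivAt.fun_sum fun x hx => ?_
    have h3 := hasDerivAt_weierstrassP L (sub_out_notMem hz hx)
    have h4 : HasDerivAt (fun u : ℂ => u - x.out) 1 z := (hasDerivAt_id z).sub_const _
    have h5 := HasDerivAt.comp z h3 h4
    rw [mul_one] at h5
    exact h5
  have hev : (fun u : ℂ => α ^ 2 * ℘[L] (α * u)) =ᶠ[𝓝 z]
      (fun u : ℂ => ∑ x ∈ ker hα hm, ℘[L] (u - x.out) + c) := by
    have h5 : ∀ᶠ u in 𝓝 z, α * u ∉ L.lattice := by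
      have h6 : IsOpen {u : ℂ | α * u ∉ L.lattice} :=
        (L.isClosed_lattice.isOpen_compl).preimage (by fun_prop : Continuous fun u : ℂ => α * u)
      exact h6.mem_nhds hz
    filter_upwards [h5] with u hu
    exact hc u hu
  have h7 := h1.unique (h2.congr_of_eventuallyEq hev)
  rw [← h7]
  ring

/-- the numbers that `σ` must fix -/
structure Fixes (L : PeriodPair) (σ : ℂ ≃+* ℂ) {α : ℂ} (hα : α ≠ 0)
    (hm : ∀ w ∈ L.lattice, α * w ∈ L.lattice) (c : ℂ) : Prop where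
  g2 : σ L.g₂ = L.g₂
  g3 : σ L.g₃ = L.g₃
  al : σ α = α
  cc : σ c = c
  wp : ∀ x ∈ ker hα hm, x.out ∉ L.lattice → σ (℘[L] x.out) = ℘[L] x.out
  wp' : ∀ x ∈ ker hα hm, x.out ∉ L.lattice → σ (℘'[L] x.out) = ℘'[L] x.out

lemma Rl.mul (hα : α ≠ 0) (hm : ∀ w ∈ L.lattice, α * w ∈ L.lattice) {c : ℂ}
    (hc : ∀ z, α * z ∉ L.lattice → α ^ 2 * ℘[L] (α * z) = ∑ x ∈ ker hα hm, ℘[L] (z - x.out) + c)
    (hF : Fixes L σ hα hm c) {z z' : ℂ} (h : Rl L σ z z') : Rl L σ (α * z) (α * z') := by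
  have hx : ∀ x ∈ ker hα hm, Rl L σ x.out x.out := by
    intro x hx
    by_cases h0 : x.out ∈ L.lattice
    · exact Or.inl ⟨h0, h0⟩
    · exact Or.inr ⟨h0, h0, hF.wp x hx h0, hF.wp' x hx h0⟩
  have hiff : α * z ∈ L.lattice ↔ α * z' ∈ L.lattice := by
    constructor
    · intro h1
      have h2 : (QuotientAddGroup.mk z : Qt L) ∈ ker hα hm := mk_mem_ker.2 h1
      have h3 := hx _ h2
      have h4 := out_sub_mem (L := L) z
      have h5 : Rl L σ z (QuotientAddGroup.mk z : Qt L).out := by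
        have := h3.add_left (neg_mem h4)
        rwa [show (QuotientAddGroup.mk z : Qt L).out + -((QuotientAddGroup.mk z : Qt L).out - z) =
          z by ring] at this
      have h6 := hm _ (h.uniq h5)
      have h7 := mem_ker.1 h2
      have h8 := add_mem h6 h7
      rwa [show α * (z' - (QuotientAddGroup.mk z : Qt L).out) +
        α * (QuotientAddGroup.mk z : Qt L).out = α * z' by ring] at h8
    · intro h1
      have h2 : (QuotientAddGroup.mk z' : Qt L) ∈ ker hα hm := mk_mem_ker.2 h1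
      have h3 := hx _ h2
      have h4 := out_sub_mem (L := L) z'
      have h5 : Rl L σ (QuotientAddGroup.mk z' : Qt L).out z' := by
        have := h3.add_right (neg_mem h4)
        rwa [show (QuotientAddGroup.mk z' : Qt L).out +
          -((QuotientAddGroup.mk z' : Qt L).out - z') = z' by ring] at this
      have h6 := hm _ (h.uniq' h5)
      have h7 := mem_ker.1 h2
      have h8 := add_mem h6 h7
      rwa [show α * (z - (QuotientAddGroup.mk z' : Qt L).out) +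
        α * (QuotientAddGroup.mk z' : Qt L).out = α * z by ring] at h8
  by_cases h1 : α * z ∈ L.lattice
  · exact Or.inl ⟨h1, hiff.1 h1⟩
  have h1' : α * z' ∉ L.lattice := fun hc => h1 (hiff.2 hc)
  have hv : ∀ x ∈ ker hα hm, σ (℘[L] (z - x.out)) = ℘[L] (z' - x.out) ∧
      σ (℘'[L] (z - x.out)) = ℘'[L] (z' - x.out) := by
    intro x hx'
    have h2 := (h.add hF.g2 hF.g3 (hx x hx').neg)
    rw [← sub_eq_add_neg, ← sub_eq_add_neg] at h2
    exact h2.vals (sub_out_notMem h1 hx')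
  refine Or.inr ⟨h1, h1', ?_, ?_⟩
  · have e1 := congrArg σ (hc z h1)
    rw [map_mul, map_pow, hF.al, map_add, map_sum, hF.cc,
      Finset.sum_congr rfl (fun x hx' => (hv x hx').1), ← hc z' h1'] at e1
    exact mul_left_cancel₀ (pow_ne_zero 2 hα) e1
  · have e1 := congrArg σ (wp'_mul hα hm hc z h1)
    rw [map_mul, map_pow, hF.al, map_sum,
      Finset.sum_congr rfl (fun x hx' => (hv x hx').2), ← wp'_mul hα hm hc z' h1'] at e1
    exact mul_left_cancel₀ (pow_ne_zero 3 hα) e1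

end Pool.Agent.TH936.CM
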